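import Pool.Agent.TH362.TP.Defs
import Mathlib.Algebra.BigOperators.Ring.Finset
import Mathlib.Algebra.BigOperators.Pi

/-!
Contraction of doubly connected sets of vertices.
-/

set_option autoImplicit false

namespace Pool.Agent.TH362.TP
open Finset Pool.Agent.TH362.TF
variable {V E : Type} [Fintype V] [DecidableEq V] [DecidableEq E]

namespace Con2

set_option linter.unusedSectionVars false

/-- the contribution of the edge `e` with the value `a` at the vertex `v` -/
def inc (s t : E → V) (v : V) (e : E) (a : ZMod 2) : ZMod 2 :=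
  (if s e = v then a else 0) + (if t e = v then a else 0)

theorem z2 (x : ZMod 2) : (if x = 1 then (1 : ZMod 2) else 0) = x := by revert x; decide

theorem z2add (x : ZMod 2) : x + x = 0 := by revert x; decide

theorem deg_cast (s t : E → V) (J : Finset E) (v : V) :
    ((deg s t J v : ℕ) : ZMod 2) = ∑ e ∈ J, inc s t v e 1 := by
  unfold deg inc
  push_cast
  rfl

theorem sum_inc_J (s t : E → V) (I J : Finset E) (hJ : J ⊆ I) (v : V) :
    ∑ e ∈ I, inc s t v e (if e ∈ J then 0 else 1) =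
      ∑ e ∈ I, inc s t v e 1 + ((deg s t J v : ℕ) : ZMod 2) := by
  rw [deg_cast, ← Finset.inter_eq_right.2 hJ, ← Finset.sum_ite_mem, ← Finset.sum_add_distrib]
  refine Finset.sum_congr rfl fun e he => ?_
  have e1 : ∀ x : ZMod 2, x + x = 0 := z2add
  have hm : e ∈ I ∩ J ↔ e ∈ J := by
    rw [Finset.mem_inter]
    exact ⟨fun h => h.2, fun h => ⟨he, h⟩⟩
  by_cases h : e ∈ J
  · have h' : e ∈ I ∩ J := hm.2 h
    simp only [h, h', if_true]
    rw [e1]
    unfold inc
    simp
  · have h' : e ∉ I ∩ J := fun h2 => h (hm.1 h2)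
    simp only [h, h', if_false, add_zero]

theorem odd_cast {n : ℕ} : ((n : ℕ) : ZMod 2) = 1 ↔ Odd n := by
  rw [← Nat.cast_one, ZMod.natCast_eq_natCast_iff', Nat.odd_iff]

theorem even_cast {n : ℕ} (h : ((n : ℕ) : ZMod 2) = 0) : Even n := by
  rw [← Nat.cast_zero, ZMod.natCast_eq_natCast_iff'] at h
  rw [Nat.even_iff]
  simpa using h

theorem sum_W (s t : E → V) (W : Finset V) (e : E) (a : ZMod 2) :
    ∑ v ∈ W, inc s t v e a = (if s e ∈ W then a else 0) + (if t e ∈ W then a else 0) := by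
  unfold inc
  rw [Finset.sum_add_distrib, Finset.sum_ite_eq, Finset.sum_ite_eq]

/-- one coordinate -/
theorem coord {s t : E → V} {S A : Finset E} {W : Finset V} {w0 : V} (hw0 : w0 ∈ W)
    (hA : A ⊆ S) (hCn : Cn s t A W) (f : V → V) (hf : ∀ v, f v = if v ∈ W then w0 else v)
    (χ : E → ZMod 2)
    (hχ : ∀ v, ∑ e ∈ S.filter (fun e => ¬ (s e ∈ W ∧ t e ∈ W)),
      ((if f (s e) = v then χ e else 0) + (if f (t e) = v then χ e else 0)) = 0) :
    ∃ J ⊆ A, ∀ v, ∑ e ∈ S, inc s t v e
      (if (s e ∈ W ∧ t e ∈ W) then (if e ∈ J then 0 else 1) else χ e) = 0 := by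
  have hfm : ∀ u, f u = w0 ↔ u ∈ W := by
    intro u
    rw [hf]
    by_cases h : u ∈ W
    · simp [h]
    · simp only [h, if_false, iff_false]
      rintro rfl
      exact h hw0
  have hfn : ∀ u v, v ∉ W → (f u = v ↔ u = v) := by
    intro u v hv
    rw [hf]
    by_cases h : u ∈ W
    · simp only [h, if_true]
      constructor
      · rintro rfl
        exact absurd hw0 hv
      · rintro rfl
        exact absurd h hv
    · simp only [h, if_false]
  obtain ⟨S', hS'⟩ : ∃ S', S' = S.filter (fun e => ¬ (s e ∈ W ∧ t e ∈ W)) := ⟨_, rfl⟩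
  obtain ⟨I, hI⟩ : ∃ I, I = S.filter (fun e => (s e ∈ W ∧ t e ∈ W)) := ⟨_, rfl⟩
  obtain ⟨P, hP⟩ : ∃ P : V → ZMod 2, ∀ v, P v = ∑ e ∈ S', inc s t v e (χ e) := ⟨_, fun _ => rfl⟩
  obtain ⟨N, hN⟩ : ∃ N : V → ZMod 2, ∀ v, N v = ∑ e ∈ I, inc s t v e 1 := ⟨_, fun _ => rfl⟩
  rw [← hS'] at hχ
  have hPs : ∑ v ∈ W, P v = 0 := by
    have h1 := hχ w0
    simp only [hfm] at h1
    rw [← h1, Finset.sum_congr rfl (fun v _ => hP v), Finset.sum_comm]
    exact Finset.sum_congr rfl fun e _ => sum_W s t W e _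
  have hNs : ∑ v ∈ W, N v = 0 := by
    rw [Finset.sum_congr rfl (fun v _ => hN v), Finset.sum_comm]
    refine Finset.sum_eq_zero fun e he => ?_
    rw [sum_W]
    rw [hI, Finset.mem_filter] at he
    simp only [he.2.1, he.2.2, if_true]
    exact z2add 1
  obtain ⟨R, hR⟩ : ∃ R, R = W.filter (fun v => P v + N v = 1) := ⟨_, rfl⟩
  have hRe : Even R.card := by
    refine even_cast ?_
    rw [hR, Finset.card_filter]
    push_cast
    rw [Finset.sum_congr rfl (fun v _ => z2 (P v + N v)), Finset.sum_add_distrib, hPs, hNs,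
      add_zero]
  obtain ⟨J, hJA, hJ⟩ := hCn.2 R (by rw [hR]; exact Finset.filter_subset _ _) hRe
  have hJI : J ⊆ I := by
    intro e he
    rw [hI, Finset.mem_filter]
    exact ⟨hA (hJA he), hCn.1 e (hJA he)⟩
  refine ⟨J, hJA, fun v => ?_⟩
  rw [← Finset.sum_filter_add_sum_filter_not S (fun e => (s e ∈ W ∧ t e ∈ W)), ← hI, ← hS']
  have e1 : ∑ e ∈ I, inc s t v e
      (if (s e ∈ W ∧ t e ∈ W) then (if e ∈ J then 0 else 1) else χ e) =
      ∑ e ∈ I, inc s t v e (if e ∈ J then 0 else 1) := by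
    refine Finset.sum_congr rfl fun e he => ?_
    rw [hI, Finset.mem_filter] at he
    rw [if_pos he.2]
  have e2 : ∑ e ∈ S', inc s t v e
      (if (s e ∈ W ∧ t e ∈ W) then (if e ∈ J then 0 else 1) else χ e) =
      ∑ e ∈ S', inc s t v e (χ e) := by
    refine Finset.sum_congr rfl fun e he => ?_
    rw [hS', Finset.mem_filter] at he
    rw [if_neg he.2]
  rw [e1, e2]
  by_cases hv : v ∈ W
  · rw [sum_inc_J s t I J hJI, ← hP, ← hN]
    have h1 : ((deg s t J v : ℕ) : ZMod 2) = 1 ↔ P v + N v = 1 := by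
      rw [odd_cast, hJ v, hR, Finset.mem_filter]
      exact ⟨fun h => h.2, fun h => ⟨hv, h⟩⟩
    have key : ∀ p n d : ZMod 2, (d = 1 ↔ p + n = 1) → n + d + p = 0 := by decide
    exact key _ _ _ h1
  · have h1 : ∑ e ∈ I, inc s t v e (if e ∈ J then 0 else 1) = 0 := by
      refine Finset.sum_eq_zero fun e he => ?_
      rw [hI, Finset.mem_filter] at he
      have h2 : s e ≠ v := fun h => hv (h ▸ he.2.1)
      have h3 : t e ≠ v := fun h => hv (h ▸ he.2.2)
      unfold inc
      rw [if_neg h2, if_neg h3, add_zero]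
    rw [h1, zero_add, ← hχ v]
    refine Finset.sum_congr rfl fun e _ => ?_
    unfold inc
    simp only [hfn _ _ hv]

theorem cons_iff {s t : E → V} {S : Finset E} {φ : E → F} {v : V} :
    Cons s t S φ v ↔ ∑ e ∈ S, inc s t v e (φ e).1 = 0 ∧ ∑ e ∈ S, inc s t v e (φ e).2 = 0 := by
  unfold Cons
  rw [Prod.ext_iff, Prod.fst_sum, Prod.snd_sum]
  have e1 : ∀ (p : Prop) [Decidable p] (x : F), (if p then x else 0).1 = if p then x.1 else 0 := by
    intro p _ x
    split <;> rfl
  have e2 : ∀ (p : Prop) [Decidable p] (x : F), (if p then x else 0).2 = if p then x.2 else 0 := by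
    intro p _ x
    split <;> rfl
  unfold inc
  simp only [Prod.fst_add, Prod.snd_add, e1, e2, Prod.fst_zero, Prod.snd_zero]

end Con2

open Con2 in
theorem MinQ.noDouble {s t : E → V} {S : Finset E} (h : MinQ s t S) :
    NoDouble s t S univ := by
  intro W _ hW A B hA hB hAB hCA hCB
  obtain ⟨u, hu, v, hv, huv⟩ := Finset.one_lt_card.1 (by omega : 1 < W.card)
  obtain ⟨f, hf⟩ : ∃ f : V → V, ∀ v, f v = if v ∈ W then u else v := ⟨_, fun _ => rfl⟩
  obtain ⟨S', hS'⟩ : ∃ S', S' = S.filter (fun e => ¬ (s e ∈ W ∧ t e ∈ W)) := ⟨_, rfl⟩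
  have hsub : S' ⊆ S := by
    rw [hS']
    exact Finset.filter_subset _ _
  have hcard : S'.card < S.card := by
    obtain ⟨J, hJA, hJ⟩ := hCA.2 {u, v} (by
      intro x hx
      rcases Finset.mem_insert.1 hx with rfl | hx
      · exact hu
      · rw [Finset.mem_singleton.1 hx]
        exact hv) (by rw [Finset.card_pair huv]; exact even_two)
    have h1 : Odd (deg s t J u) := (hJ u).2 (Finset.mem_insert_self _ _)
    have h2 : J.Nonempty := by
      rw [Finset.nonempty_iff_ne_empty]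
      rintro rfl
      simp [deg] at h1
    obtain ⟨e, he⟩ := h2
    refine Finset.card_lt_card ⟨hsub, fun h3 => ?_⟩
    have h4 := h3 (hA (hJA he))
    rw [hS', Finset.mem_filter] at h4
    exact h4.2 (hCA.1 e (hJA he))
  obtain ⟨φ, hφ, hc⟩ := h.ih f S' hsub (by
    intro e he he'
    rw [hS', Finset.mem_filter, not_and, not_not] at he'
    obtain ⟨h1, h2⟩ := he' he
    rw [hf, hf, if_pos h1, if_pos h2]) hcard
  have hc' : ∀ v, ∑ e ∈ S', inc (fun e => f (s e)) (fun e => f (t e)) v e (φ e).1 = 0 ∧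
      ∑ e ∈ S', inc (fun e => f (s e)) (fun e => f (t e)) v e (φ e).2 = 0 :=
    fun v => cons_iff.1 (hc v)
  rw [hS'] at hc'
  obtain ⟨J1, hJ1, h1⟩ := coord hu hA hCA f hf (fun e => (φ e).1) (fun v => (hc' v).1)
  obtain ⟨J2, hJ2, h2⟩ := coord hu hB hCB f hf (fun e => (φ e).2) (fun v => (hc' v).2)
  refine h.nz ⟨fun e => if (s e ∈ W ∧ t e ∈ W) then
    ((if e ∈ J1 then 0 else 1, if e ∈ J2 then 0 else 1) : F) else φ e, ?_, ?_⟩
  · intro e he h0
    beta_reduce at h0
    by_cases hin : s e ∈ W ∧ t e ∈ W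
    · rw [if_pos hin] at h0
      have h3 := (Prod.ext_iff.1 h0).1
      have h4 := (Prod.ext_iff.1 h0).2
      have h5 : e ∈ J1 := by
        by_contra h6
        simp only [h6, if_false] at h3
        exact absurd h3 (by decide)
      have h7 : e ∈ J2 := by
        by_contra h6
        simp only [h6, if_false] at h4
        exact absurd h4 (by decide)
      exact Finset.disjoint_left.1 hAB (hJ1 h5) (hJ2 h7)
    · rw [if_neg hin] at h0
      refine hφ e ?_ h0
      rw [hS', Finset.mem_filter]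
      exact ⟨he, hin⟩
  · intro v
    rw [cons_iff]
    constructor
    · refine Eq.trans ?_ (h1 v)
      refine Finset.sum_congr rfl fun e _ => ?_
      by_cases hin : s e ∈ W ∧ t e ∈ W
      · simp only [if_pos hin]
      · simp only [if_neg hin]
    · refine Eq.trans ?_ (h2 v)
      refine Finset.sum_congr rfl fun e _ => ?_
      by_cases hin : s e ∈ W ∧ t e ∈ W
      · simp only [if_pos hin]
      · simp only [if_neg hin]

open Con2 in
theorem nz_of_good {s t : E → V} {S : Finset E} (h : Good s t S (odd s t S) (odd s t S)) :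
    NZ s t S := by
  obtain ⟨J1, J2, h1, h2, hd, k1, k2⟩ := h
  refine ⟨fun e => (if e ∈ J1 then 0 else 1, if e ∈ J2 then 0 else 1), ?_, ?_⟩
  · intro e _ h0
    have h3 := (Prod.ext_iff.1 h0).1
    have h4 := (Prod.ext_iff.1 h0).2
    have h5 : e ∈ J1 := by
      by_contra h6
      simp only [h6, if_false] at h3
      exact absurd h3 (by decide)
    have h7 : e ∈ J2 := by
      by_contra h6
      simp only [h6, if_false] at h4
      exact absurd h4 (by decide)
    exact Finset.disjoint_left.1 hd h5 h7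
  · intro v
    have key : ∀ J : Finset E, J ⊆ S → IsJoin s t J (odd s t S) →
        ∑ e ∈ S, inc s t v e (if e ∈ J then 0 else 1) = 0 := by
      intro J hJ hj
      rw [sum_inc_J s t S J hJ, ← deg_cast]
      have h3 : ((deg s t J v : ℕ) : ZMod 2) = 1 ↔ ((deg s t S v : ℕ) : ZMod 2) = 1 := by
        rw [odd_cast, odd_cast, hj v]
        unfold odd
        rw [Finset.mem_filter]
        exact ⟨fun h => h.2, fun h => ⟨Finset.mem_univ _, h⟩⟩
      have k : ∀ a b : ZMod 2, (b = 1 ↔ a = 1) → a + b = 0 := by decide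
      exact k _ _ h3
    rw [cons_iff]
    exact ⟨key J1 h1 k1, key J2 h2 k2⟩

end Pool.Agent.TH362.TP
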