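import Pool.Agent.TH362.TP.Tight
import Mathlib.Data.Finset.Option

/-!
Decomposition of Laman graphs into two spanning trees with one common edge.
-/

set_option autoImplicit false

namespace Pool.Agent.TH362.TP
open Finset Pool.Agent.TH362.TF

variable {V E : Type} [Fintype V] [DecidableEq V] [DecidableEq E]

namespace Laman

set_option linter.unusedSectionVars false

/-- transport of trees along a map of the edges which is injective on the tree -/
theorem tree_image {E' : Type} [DecidableEq E'] {s t : E → V} (φ : E' → E) {A : Finset E'}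
    {U : Finset V} (hinj : ∀ a ∈ A, ∀ b ∈ A, φ a = φ b → a = b)
    (hT : Tree (fun o => s (φ o)) (fun o => t (φ o)) A U) : Tree s t (A.image φ) U := by
  obtain ⟨⟨h1, h2⟩, h3⟩ := hT
  refine ⟨⟨fun l hl => ?_, fun R hR hev => ?_⟩, fun l hl => ?_⟩
  · obtain ⟨o, ho, rfl⟩ := mem_image.1 hl
    exact h1 o ho
  · obtain ⟨J, hJ, hj⟩ := h2 R hR hev
    refine ⟨J.image φ, image_subset_image hJ, fun w => ?_⟩
    have : deg s t (J.image φ) w = deg (fun o => s (φ o)) (fun o => t (φ o)) J w := by
      unfold deg
      rw [sum_image]
      intro a ha b hb hab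
      exact hinj a (hJ ha) b (hJ hb) hab
    rw [this]
    exact hj w
  · obtain ⟨o, ho, rfl⟩ := mem_image.1 hl
    obtain ⟨x, hx⟩ := h3 o ho
    refine ⟨x, ?_⟩
    have : cut s t (A.image φ) x = (cut (fun o => s (φ o)) (fun o => t (φ o)) A x).image φ := by
      ext l
      simp only [cut, mem_filter, mem_image]
      constructor
      · rintro ⟨⟨a, ha, rfl⟩, h⟩
        exact ⟨a, ⟨ha, h⟩, rfl⟩
      · rintro ⟨a, ⟨ha, h⟩, rfl⟩
        exact ⟨⟨a, ha, rfl⟩, h⟩
    rw [this, hx, image_singleton]

theorem finish {s t : E → V} {S : Finset E} {U : Finset V} {e : E} (he : e ∈ S)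
    {A B : Finset (Option E)} (hd : Disjoint A B) (hAB : A ∪ B = insertNone S)
    (hA : none ∈ A) (hA' : some e ∉ A)
    (hTA : Tree (fun o => s (Option.getD o e)) (fun o => t (Option.getD o e)) A U)
    (hTB : Tree (fun o => s (Option.getD o e)) (fun o => t (Option.getD o e)) B U) :
    ∃ A B : Finset E, A ∩ B = {e} ∧ A ∪ B = S ∧ Tree s t A U ∧ Tree s t B U := by
  have hB : none ∉ B := fun h => disjoint_left.1 hd hA h
  have heB : some e ∈ B := by
    have : some e ∈ A ∪ B := by rw [hAB]; simpa using he
    rcases mem_union.1 this with h | h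
    · exact absurd h hA'
    · exact h
  have hphi : ∀ a b : Option E, Option.getD a e = Option.getD b e →
      a = b ∨ (a = none ∧ b = some e) ∨ (a = some e ∧ b = none) := by
    intro a b h
    cases a with
    | none =>
      cases b with
      | none => exact Or.inl rfl
      | some b =>
        right; left
        refine ⟨rfl, ?_⟩
        simp only [Option.getD_none, Option.getD_some] at h
        rw [h]
    | some a =>
      cases b with
      | none =>
        right; right
        refine ⟨?_, rfl⟩
        simp only [Option.getD_none, Option.getD_some] at h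
        rw [h]
      | some b =>
        left
        simp only [Option.getD_some] at h
        rw [h]
  have k1 := tree_image (fun o => Option.getD o e) (fun a ha b hb h => by
    rcases hphi a b h with h | ⟨h4, h5⟩ | ⟨h4, h5⟩
    · exact h
    · rw [h5] at hb; exact absurd hb hA'
    · rw [h4] at ha; exact absurd ha hA') hTA
  have k2 := tree_image (fun o => Option.getD o e) (fun a ha b hb h => by
    rcases hphi a b h with h | ⟨h4, h5⟩ | ⟨h4, h5⟩
    · exact h
    · rw [h4] at ha; exact absurd ha hB
    · rw [h5] at hb; exact absurd hb hB) hTB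
  refine ⟨_, _, ?_, ?_, k1, k2⟩
  · ext l
    rw [mem_inter, mem_image, mem_image, mem_singleton]
    constructor
    · rintro ⟨⟨a, ha, rfl⟩, ⟨b, hb, hba⟩⟩
      rcases hphi b a hba with h | ⟨h4, h5⟩ | ⟨h4, h5⟩
      · exact absurd (h ▸ hb) (disjoint_left.1 hd ha)
      · rw [h5]; rfl
      · rw [h5]; rfl
    · rintro rfl
      exact ⟨⟨none, hA, rfl⟩, ⟨some l, heB, rfl⟩⟩
  · rw [← image_union, hAB]
    ext l
    rw [mem_image]
    constructor
    · rintro ⟨o, ho, rfl⟩
      cases o with
      | none => exact he
      | some a => simpa using ho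
    · intro hl
      exact ⟨some l, by simpa using hl, rfl⟩

end Laman

theorem laman2 {s t : E → V} (S : Finset E) (U : Finset V) (hS : ∀ e ∈ S, s e ∈ U ∧ t e ∈ U)
    (hc : S.card + 3 = 2 * U.card)
    (hl : ∀ e ∈ S, s e ≠ t e)
    (hsp : ∀ Y : Finset V, Y ⊆ U → 2 ≤ Y.card → (ins s t S Y).card + 3 ≤ 2 * Y.card)
    (e : E) (he : e ∈ S) :
    ∃ A B : Finset E, A ∩ B = {e} ∧ A ∪ B = S ∧ Tree s t A U ∧ Tree s t B U := by
  have hmem : ∀ o : Option E, o ∈ insertNone S → Option.getD o e ∈ S := by
    intro o ho
    cases o with
    | none => exact he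
    | some a => simpa using ho
  obtain ⟨A, B, hd, hAB, hTA, hTB⟩ := tight2 (s := fun o : Option E => s (Option.getD o e))
    (t := fun o : Option E => t (Option.getD o e)) (insertNone S) U
    (fun o ho => hS _ (hmem o ho)) (by rw [card_insertNone]; omega) (by
      intro Y hY hYn
      rcases Nat.lt_or_ge Y.card 2 with h1 | h1
      · have h2 : Y.card = 1 := by
          have := card_pos.2 hYn
          omega
        obtain ⟨w, hw⟩ := card_eq_one.1 h2
        have h3 : ins (fun o : Option E => s (Option.getD o e))
            (fun o : Option E => t (Option.getD o e)) (insertNone S) Y = ∅ := by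
          rw [eq_empty_iff_forall_notMem]
          intro o ho
          rw [Tight.mem_ins, hw, mem_singleton, mem_singleton] at ho
          exact hl _ (hmem o ho.1) (ho.2.1.trans ho.2.2.symm)
        rw [h3, h2, card_empty]
      · have h3 : ins (fun o : Option E => s (Option.getD o e))
            (fun o : Option E => t (Option.getD o e)) (insertNone S) Y ⊆
            insertNone (ins s t S Y) := by
          intro o ho
          rw [Tight.mem_ins] at ho
          rw [mem_insertNone]
          rintro a rfl
          exact Tight.mem_ins.2 ⟨by simpa using ho.1, ho.2⟩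
        have h4 := card_le_card h3
        rw [card_insertNone] at h4
        have h5 := hsp Y hY h1
        omega)
  have hpar : ∀ C : Finset (Option E),
      Tree (fun o : Option E => s (Option.getD o e)) (fun o : Option E => t (Option.getD o e)) C U →
      none ∈ C → some e ∉ C := by
    intro C hC h1 h2
    obtain ⟨x, hx⟩ := hC.2 none h1
    have h3 : none ∈ cut (fun o : Option E => s (Option.getD o e))
        (fun o : Option E => t (Option.getD o e)) C x := by rw [hx]; exact mem_singleton_self _
    have h4 : some e ∈ cut (fun o : Option E => s (Option.getD o e))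
        (fun o : Option E => t (Option.getD o e)) C x := by
      simp only [cut, mem_filter] at h3 ⊢
      exact ⟨h2, h3.2⟩
    rw [hx, mem_singleton] at h4
    exact Option.some_ne_none e h4
  have hn : none ∈ A ∪ B := by rw [hAB]; exact none_mem_insertNone
  rcases mem_union.1 hn with h | h
  · exact Laman.finish he hd hAB h (hpar A hTA h) hTA hTB
  · exact Laman.finish he hd.symm (by rw [union_comm]; exact hAB) h (hpar B hTB h) hTB hTA

end Pool.Agent.TH362.TP
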