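import Pool.Agent.TH362.TP.Tre

/-!
Double trees with a leaf.
-/

set_option autoImplicit false
set_option linter.unusedSectionVars false

namespace Pool.Agent.TH362.TP

open Finset Pool.Agent.TH362.TF

variable {V E : Type} [Fintype V] [DecidableEq V] [DecidableEq E]

namespace Leaf

theorem ends_symm {s t : E → V} {u w : V} {k : E} (h : Ends s t u w k) : Ends s t w u k := by
  rcases h with h | h
  · exact Or.inr h
  · exact Or.inl h

theorem ncross {s t : E → V} {A : Finset E} {x : V → Bool} {h k : E}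
    (hx : cut s t A x = {h}) (hk : k ∈ A) (hne : k ≠ h) : x (s k) = x (t k) := by
  by_contra hc
  have h1 : k ∈ cut s t A x := by
    unfold cut
    exact Finset.mem_filter.2 ⟨hk, hc⟩
  rw [hx, Finset.mem_singleton] at h1
  exact hne h1

theorem ncross' {s t : E → V} {A : Finset E} {x : V → Bool} {h k : E} {u w : V}
    (hx : cut s t A x = {h}) (hk : k ∈ A) (hne : k ≠ h) (he : Ends s t u w k) : x u = x w := by
  have h1 := ncross hx hk hne
  rcases he with ⟨h2, h3⟩ | ⟨h2, h3⟩
  · rw [← h2, ← h3]; exact h1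
  · rw [← h2, ← h3]; exact h1.symm

theorem cross {s t : E → V} {A : Finset E} {x : V → Bool} {h : E}
    (hx : cut s t A x = {h}) : h ∈ A ∧ x (s h) ≠ x (t h) := by
  have h1 : h ∈ cut s t A x := by rw [hx]; exact Finset.mem_singleton_self _
  unfold cut at h1
  exact Finset.mem_filter.1 h1

theorem cross' {s t : E → V} {A : Finset E} {x : V → Bool} {h : E} {u w : V}
    (hx : cut s t A x = {h}) (he : Ends s t u w h) : x u ≠ x w := by
  have h1 := (cross hx).2
  rcases he with ⟨h2, h3⟩ | ⟨h2, h3⟩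
  · rw [← h2, ← h3]; exact h1
  · rw [← h2, ← h3]; exact h1.symm

theorem mk_cut {s t : E → V} {A : Finset E} {x : V → Bool} {h : E} (hh : h ∈ A)
    (hc : x (s h) ≠ x (t h)) (hn : ∀ k ∈ A, k ≠ h → x (s k) = x (t k)) : cut s t A x = {h} := by
  ext k
  unfold cut
  rw [Finset.mem_filter, Finset.mem_singleton]
  constructor
  · rintro ⟨h1, h2⟩
    by_contra h3
    exact h2 (hn k h1 h3)
  · rintro rfl
    exact ⟨hh, hc⟩

theorem const_of {s t : E → V} {A : Finset E} {U : Finset V} (hA : Cn s t A U) {z : V → Bool}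
    (hz : ∀ k ∈ A, z (s k) = z (t k)) {u v : V} (hu : u ∈ U) (hv : v ∈ U) : z u = z v := by
  refine hA.const ?_ hu hv
  unfold cut
  rw [Finset.filter_eq_empty_iff]
  intro k hk h
  exact h (hz k hk)

theorem noloop {s t : E → V} {A : Finset E} {U : Finset V} (hA : Tree s t A U) {k : E}
    (hk : k ∈ A) : s k ≠ t k := by
  intro h
  obtain ⟨x, hx⟩ := hA.2 k hk
  exact (cross hx).2 (by rw [h])

/-- Both sides of a function with an odd side are odd. -/
theorem both {R : Finset V} {z : V → Bool} (he : Even R.card)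
    (ho : Odd (R.filter (fun v => z v = true)).card) (c : Bool) :
    Odd (R.filter (fun v => z v = c)).card := by
  cases c with
  | true => exact ho
  | false =>
    have h1 := Finset.card_filter_add_card_filter_not (s := R) (fun v => z v = true)
    have h2 : R.filter (fun v => ¬ z v = true) = R.filter (fun v => z v = false) := by
      refine Finset.filter_congr fun v _ => ?_
      simp
    rw [h2] at h1
    rw [Nat.odd_iff] at ho ⊢
    rw [Nat.even_iff] at he
    omega

theorem pair_odd {a c : V} {x : V → Bool} (hac : a ≠ c)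
    (h : Odd (({a, c} : Finset V).filter (fun v => x v = true)).card) : x a ≠ x c := by
  intro h1
  rw [Finset.filter_insert, Finset.filter_singleton] at h
  cases h2 : x a with
  | true =>
    rw [h2] at h1
    rw [h2, ← h1] at h
    simp only [if_true] at h
    rw [Finset.card_pair hac] at h
    exact absurd h (by decide)
  | false =>
    rw [h2] at h1
    rw [h2, ← h1] at h
    simp at h

theorem odd_pair {a c : V} {x : V → Bool} (h1 : x a ≠ x c) :
    Odd (({a, c} : Finset V).filter (fun v => x v = true)).card := by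
  rw [Finset.filter_insert, Finset.filter_singleton]
  cases h2 : x a with
  | true =>
    have h3 : x c = false := by
      cases h4 : x c with
      | true => exact absurd (h2.trans h4.symm) h1
      | false => rfl
    rw [h3]
    simp
  | false =>
    have h3 : x c = true := by
      cases h4 : x c with
      | true => rfl
      | false => exact absurd (h2.trans h4.symm) h1
    rw [h3]
    simp

theorem ex_edge {s t : E → V} {J : Finset E} {R : Finset V} (hJ : IsJoin s t J R) {a : V}
    (ha : a ∈ R) : ∃ k ∈ J, s k = a ∨ t k = a := by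
  have h1 : Odd (deg s t J a) := (hJ a).2 ha
  by_contra hcon
  push Not at hcon
  have h2 : deg s t J a = 0 := by
    unfold deg
    refine Finset.sum_eq_zero fun k hk => ?_
    simp [(hcon k hk).1, (hcon k hk).2]
  rw [h2] at h1
  exact absurd h1 (by decide)

/-- The path from `a` to `c` begins with an edge separating them. -/
theorem step {s t : E → V} {A : Finset E} {U : Finset V} (hA : Tree s t A U) {a c : V}
    (ha : a ∈ U) (hc : c ∈ U) (hac : a ≠ c) :
    ∃ k ∈ A, ∃ a' ∈ U, Ends s t a a' k ∧ (∀ x : V → Bool, cut s t A x = {k} → x a ≠ x c) ∧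
      ∀ (x : V → Bool) (h : E), cut s t A x = {h} → x a = x c → k ≠ h := by
  obtain ⟨J, hJA, hJ⟩ := hA.1.2 {a, c} (by
    intro u hu
    rw [Finset.mem_insert, Finset.mem_singleton] at hu
    rcases hu with rfl | rfl
    · exact ha
    · exact hc) (by rw [Finset.card_pair hac]; decide)
  obtain ⟨k, hk, hka⟩ := ex_edge hJ (a := a) (by simp)
  have hkA := hJA hk
  have hU := hA.1.1 k hkA
  refine ⟨k, hkA, ?_⟩
  have h1 : ∀ x : V → Bool, cut s t A x = {k} → x a ≠ x c := fun x hx =>
    pair_odd hac ((join_mem_iff hx hJA hJ).1 hk)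
  have h2 : ∀ (x : V → Bool) (h : E), cut s t A x = {h} → x a = x c → k ≠ h := by
    rintro x h hx hxa rfl
    exact h1 x hx hxa
  rcases hka with h | h
  · exact ⟨t k, hU.2, Or.inl ⟨h, rfl⟩, h1, h2⟩
  · exact ⟨s k, hU.1, Or.inr ⟨rfl, h⟩, h1, h2⟩

/-- The edges of the first tree other than `e` are not at `v`. -/
theorem notv {s t : E → V} {T1 : Finset E} {U : Finset V} {e : E} {v : V} (h1 : Tree s t T1 U)
    {x : V → Bool} (hx : cut s t T1 x = {e}) (hx1 : ∀ u ∈ U, u ≠ v → x u ≠ x v)
    {k : E} (hk : k ∈ T1) (hke : k ≠ e) : s k ≠ v ∧ t k ≠ v := by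
  have hc := ncross hx hk hke
  have hU := h1.1.1 k hk
  have hl := noloop h1 hk
  constructor
  · intro h
    refine hx1 (t k) hU.2 (fun h2 => hl (h.trans h2.symm)) ?_
    rw [← hc, h]
  · intro h
    refine hx1 (s k) hU.1 (fun h2 => hl (h2.trans h.symm)) ?_
    rw [hc, h]

theorem notv' {s t : E → V} {T1 : Finset E} {U : Finset V} {e : E} {v : V} (h1 : Tree s t T1 U)
    {x : V → Bool} (hx : cut s t T1 x = {e}) (hx1 : ∀ u ∈ U, u ≠ v → x u ≠ x v)
    {k : E} (hk : k ∈ T1) (hke : k ≠ e) {a b : V} (he : Ends s t a b k) : a ≠ v ∧ b ≠ v := by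
  have h := notv h1 hx hx1 hk hke
  rcases he with ⟨h2, h3⟩ | ⟨h2, h3⟩
  · rw [← h2, ← h3]; exact h
  · rw [← h2, ← h3]; exact ⟨h.2, h.1⟩

theorem bool_ne {a b c : Bool} (h1 : a ≠ b) (h2 : c ≠ b) : a = c := by
  revert a b c; decide

/-- Fixed point argument: an edge of the first tree that is expanded. -/
theorem expand {s t : E → V} {T1 : Finset E} {U : Finset V} {e : E} {v : V}
    (h1 : Tree s t T1 U) {x : V → Bool} (hx : cut s t T1 x = {e})
    (hx1 : ∀ u ∈ U, u ≠ v → x u ≠ x v) (P : E → V → Prop) (N : Finset E) (n : E → V)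
    (hn : ∀ g ∈ N, n g ∈ U ∧ n g ≠ v) (hPn : ∀ g ∈ N, P g (n g))
    (hPu : ∀ g ∈ N, ∀ g' ∈ N, ∀ u ∈ U, P g u → P g' u → g = g')
    (hPc : ∀ u ∈ U, u ≠ v → ∃ g ∈ N, P g u) (m : ℕ) :
    ∀ (w w' : V) (h : E) (y : V → Bool) (g g0 : E), h ∈ T1 → h ≠ e → w ∈ U → w' ∈ U →
      Ends s t w w' h → cut s t T1 y = {h} → g ∈ N → P g w → y (n g) = y w → g0 ∈ N →
      y (n g0) = y w' → (U.filter (fun u => y u = y w')).card ≤ m →
      ∃ (w w' : V) (h : E) (y : V → Bool) (g g' : E), h ∈ T1 ∧ h ≠ e ∧ w ∈ U ∧ w' ∈ U ∧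
        Ends s t w w' h ∧ cut s t T1 y = {h} ∧ g ∈ N ∧ g' ∈ N ∧ P g w ∧ P g' w' ∧
        y (n g) = y w ∧ y (n g') = y w' := by
  induction m with
  | zero =>
    intro w w' h y g g0 _ _ _ hw' _ _ _ _ _ _ _ hm
    exfalso
    rw [Nat.le_zero, Finset.card_eq_zero, Finset.filter_eq_empty_iff] at hm
    exact hm hw' rfl
  | succ m ih =>
    intro w w' h y g g0 hT he hw hw' hE hy hg hgw hgy hg0 hg0y hm
    have hv' := notv' h1 hx hx1 hT he hE
    obtain ⟨g', hg', hg'w⟩ := hPc w' hw' hv'.2
    by_cases hF : y (n g') = y w'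
    · exact ⟨w, w', h, y, g, g', hT, he, hw, hw', hE, hy, hg, hg', hgw, hg'w, hgy, hF⟩
    have hyw : y w ≠ y w' := cross' hy hE
    have hne : w' ≠ n g0 := by
      rintro hc
      have h3 : g' = g0 := hPu g' hg' g0 hg0 w' hw' hg'w (hc ▸ hPn g0 hg0)
      rw [h3] at hF
      exact hF hg0y
    obtain ⟨k, hk, w'', hw'', hkE, hk1, hk2⟩ := step h1 hw' (hn g0 hg0).1 hne
    have hke : k ≠ e := hk2 x e hx (bool_ne (hx1 w' hw' hv'.2) (hx1 _ (hn g0 hg0).1 (hn g0 hg0).2))
    have hkh : k ≠ h := hk2 y h hy hg0y.symm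
    obtain ⟨y', hy'⟩ := h1.2 k hk
    have hy'w : y' w' ≠ y' w'' := cross' hy' hkE
    have hy'0 : y' w' ≠ y' (n g0) := hk1 y' hy'
    -- the sides are nested
    have hz : ∀ u ∈ U, ¬ (y u ≠ y w' ∧ y' u ≠ y' w') := by
      have hzc : ∀ q ∈ T1, (decide (y (s q) ≠ y w' ∧ y' (s q) ≠ y' w') : Bool) =
          decide (y (t q) ≠ y w' ∧ y' (t q) ≠ y' w') := by
        have key : ∀ a b : V, ∀ q ∈ T1, Ends s t a b q → (y a ≠ y w' ∧ y' a ≠ y' w') →
            (y b ≠ y w' ∧ y' b ≠ y' w') := by
          intro a b q hq hab ha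
          by_cases hqh : q = h
          · exfalso
            subst hqh
            have h4 : y' a = y' b := ncross' hy' hq (Ne.symm hkh) hab
            -- one of the ends is `w'`
            have h5 : a = w' ∨ b = w' := by
              rcases hab with ⟨r1, r2⟩ | ⟨r1, r2⟩ <;> rcases hE with ⟨r3, r4⟩ | ⟨r3, r4⟩
              · right; rw [← r2, r4]
              · left; rw [← r1, r3]
              · left; rw [← r2, r4]
              · right; rw [← r1, r3]
            rcases h5 with h5 | h5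
            · exact ha.1 (by rw [h5])
            · exact ha.2 (by rw [h4, h5])
          by_cases hqk : q = k
          · exfalso
            subst hqk
            have h4 : y a = y b := ncross' hy hq hkh hab
            have h5 : a = w' ∨ b = w' := by
              rcases hab with ⟨r1, r2⟩ | ⟨r1, r2⟩ <;> rcases hkE with ⟨r3, r4⟩ | ⟨r3, r4⟩
              · left; rw [← r1, r3]
              · right; rw [← r2, r4]
              · right; rw [← r1, r3]
              · left; rw [← r2, r4]
            rcases h5 with h5 | h5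
            · exact ha.1 (by rw [h5])
            · exact ha.1 (by rw [h4, h5])
          rw [← ncross' hy hq hqh hab, ← ncross' hy' hq hqk hab]
          exact ha
        intro q hq
        rw [decide_eq_decide]
        exact ⟨key _ _ q hq (Or.inl ⟨rfl, rfl⟩), key _ _ q hq (Or.inr ⟨rfl, rfl⟩)⟩
      intro u hu hu2
      have h6 := const_of h1.1 (z := fun u => decide (y u ≠ y w' ∧ y' u ≠ y' w')) hzc hu hw'
      simp only [decide_eq_decide] at h6
      exact (h6.1 hu2).1 rfl
    refine ih w' w'' k y' g' g0 hk hke hw' hw'' hkE hy' hg' hg'w ?_ hg0 ?_ ?_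
    · have := hz (n g') (hn g' hg').1
      by_contra h7
      exact this ⟨hF, h7⟩
    · exact bool_ne (Ne.symm hy'0) (Ne.symm hy'w)
    · refine Nat.le_of_lt_succ (lt_of_lt_of_le (Finset.card_lt_card ?_) hm)
      rw [Finset.ssubset_iff_of_subset]
      · refine ⟨w', Finset.mem_filter.2 ⟨hw', rfl⟩, fun h7 => ?_⟩
        exact hy'w (Finset.mem_filter.1 h7).2
      · intro u hu
        rw [Finset.mem_filter] at hu ⊢
        refine ⟨hu.1, ?_⟩
        by_contra h7
        exact hz u hu.1 ⟨h7, by rw [hu.2]; exact Ne.symm hy'w⟩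

end Leaf

open Leaf in
theorem leaf {s t : E → V} {S : Finset E} {U : Finset V} {T1 T2 : Finset E} {e : E}
    (nd : NoDouble s t S U) (hS : ∀ g ∈ S, s g ∈ U ∧ t g ∈ U) (h1 : Tree s t T1 U)
    (h2 : Tree s t T2 U) (hs1 : T1 ⊆ S) (hs2 : T2 ⊆ S) (hi : T1 ∩ T2 = {e}) (v b : V)
    (he : Ends s t v b e) (x : V → Bool) (hx : cut s t T1 x = {e})
    (hv : U.filter (fun w => x w = x v) = {v})
    (hd : ∃ g ∈ S, g ≠ e ∧ s g ≠ t g ∧ (s g = v ∨ t g = v))
    (R1 R2 : Finset V) (hR1 : R1 ⊆ U) (hR2 : R2 ⊆ U) (e1 : Even R1.card) (e2 : Even R2.card) :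
    Good s t S R1 R2 := by
  by_contra ng
  have hx1 : ∀ u ∈ U, u ≠ v → x u ≠ x v := by
    intro u hu huv h
    have h3 : u ∈ U.filter (fun w => x w = x v) := Finset.mem_filter.2 ⟨hu, h⟩
    rw [hv, Finset.mem_singleton] at h3
    exact huv h3
  have he12 : e ∈ T1 ∩ T2 := by rw [hi]; exact Finset.mem_singleton_self _
  have he1 : e ∈ T1 := (Finset.mem_inter.1 he12).1
  have he2 : e ∈ T2 := (Finset.mem_inter.1 he12).2
  have hT12 : ∀ k ∈ T1, k ∈ T2 → k = e := by
    intro k hk1 hk2
    have h3 : k ∈ T1 ∩ T2 := Finset.mem_inter.2 ⟨hk1, hk2⟩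
    rwa [hi, Finset.mem_singleton] at h3
  have hvU : v ∈ U := by
    have h3 : v ∈ U.filter (fun w => x w = x v) := by rw [hv]; exact Finset.mem_singleton_self _
    exact (Finset.mem_filter.1 h3).1
  have hvb : v ≠ b := by
    intro h
    have := cross' hx he
    exact this (by rw [h])
  have hbU : b ∈ U := by
    have h3 := h1.1.1 e he1
    rcases he with ⟨h4, h5⟩ | ⟨h4, h5⟩
    · rw [← h5]; exact h3.2
    · rw [← h4]; exact h3.1
  -- the edges of the second tree at `v`
  obtain ⟨n, hn⟩ : ∃ n : E → V, ∀ g, (s g = v ∨ t g = v) → Ends s t v (n g) g := by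
    refine ⟨fun g => if s g = v then t g else s g, fun g hg => ?_⟩
    by_cases h3 : s g = v
    · left
      exact ⟨h3, by simp [h3]⟩
    · right
      refine ⟨by simp [h3], ?_⟩
      rcases hg with h4 | h4
      · exact absurd h4 h3
      · exact h4
  obtain ⟨N, hN⟩ : ∃ N : Finset E, ∀ g, g ∈ N ↔ g ∈ T2 ∧ (s g = v ∨ t g = v) :=
    ⟨T2.filter (fun g => s g = v ∨ t g = v), fun g => Finset.mem_filter⟩
  have heN : e ∈ N := (hN e).2 ⟨he2, by
    rcases he with ⟨h4, _⟩ | ⟨_, h5⟩
    · exact Or.inl h4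
    · exact Or.inr h5⟩
  have hNE : ∀ g ∈ N, Ends s t v (n g) g := fun g hg => hn g ((hN g).1 hg).2
  have hNT : ∀ g ∈ N, g ∈ T2 := fun g hg => ((hN g).1 hg).1
  have hnU : ∀ g ∈ N, n g ∈ U ∧ n g ≠ v := by
    intro g hg
    have h3 := h2.1.1 g (hNT g hg)
    have h4 := noloop h2 (hNT g hg)
    rcases hNE g hg with ⟨h5, h6⟩ | ⟨h5, h6⟩
    · rw [h5, h6] at h4
      rw [h6] at h3
      exact ⟨h3.2, Ne.symm h4⟩
    · rw [h5, h6] at h4
      rw [h5] at h3
      exact ⟨h3.1, h4⟩
  obtain ⟨X, hX⟩ : ∃ X : E → V → Bool, ∀ g ∈ T2, cut s t T2 (X g) = {g} := by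
    choose! X hX using h2.2
    exact ⟨X, hX⟩
  have hPn : ∀ g ∈ N, X g (n g) ≠ X g v := fun g hg =>
    Ne.symm (cross' (hX g (hNT g hg)) (hNE g hg))
  have hPu : ∀ g ∈ N, ∀ g' ∈ N, ∀ u ∈ U, X g u ≠ X g v → X g' u ≠ X g' v → g = g' := by
    intro g hg g' hg' u hu hu1 hu2
    by_contra hgg
    have hzc : ∀ q ∈ T2, (decide (X g (s q) ≠ X g v ∧ X g' (s q) ≠ X g' v) : Bool) =
        decide (X g (t q) ≠ X g v ∧ X g' (t q) ≠ X g' v) := by
      have key : ∀ a b : V, ∀ q ∈ T2, Ends s t a b q → (X g a ≠ X g v ∧ X g' a ≠ X g' v) →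
          (X g b ≠ X g v ∧ X g' b ≠ X g' v) := by
        intro a b q hq hab ha
        by_cases hqh : q = g
        · exfalso
          subst hqh
          have h4 : X g' a = X g' b := ncross' (hX g' (hNT g' hg')) hq hgg hab
          have h5 : a = v ∨ b = v := by
            rcases hab with ⟨r1, r2⟩ | ⟨r1, r2⟩ <;> rcases hNE q hg with ⟨r3, r4⟩ | ⟨r3, r4⟩
            · left; rw [← r1, r3]
            · right; rw [← r2, r4]
            · right; rw [← r1, r3]
            · left; rw [← r2, r4]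
          rcases h5 with h5 | h5
          · exact ha.1 (by rw [h5])
          · exact ha.2 (by rw [h4, h5])
        by_cases hqk : q = g'
        · exfalso
          subst hqk
          have h4 : X g a = X g b := ncross' (hX g (hNT g hg)) hq hqh hab
          have h5 : a = v ∨ b = v := by
            rcases hab with ⟨r1, r2⟩ | ⟨r1, r2⟩ <;> rcases hNE q hg' with ⟨r3, r4⟩ | ⟨r3, r4⟩
            · left; rw [← r1, r3]
            · right; rw [← r2, r4]
            · right; rw [← r1, r3]
            · left; rw [← r2, r4]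
          rcases h5 with h5 | h5
          · exact ha.1 (by rw [h5])
          · exact ha.1 (by rw [h4, h5])
        rw [← ncross' (hX g (hNT g hg)) hq hqh hab, ← ncross' (hX g' (hNT g' hg')) hq hqk hab]
        exact ha
      intro q hq
      rw [decide_eq_decide]
      exact ⟨key _ _ q hq (Or.inl ⟨rfl, rfl⟩), key _ _ q hq (Or.inr ⟨rfl, rfl⟩)⟩
    have h6 := const_of h2.1 (z := fun u => decide (X g u ≠ X g v ∧ X g' u ≠ X g' v)) hzc hu hvU
    simp only [decide_eq_decide] at h6
    exact (h6.1 ⟨hu1, hu2⟩).1 rfl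
  have hPc : ∀ u ∈ U, u ≠ v → ∃ g ∈ N, X g u ≠ X g v := by
    intro u hu huv
    obtain ⟨k, hk, a', _, hkE, hk1, _⟩ := step h2 hvU hu (Ne.symm huv)
    refine ⟨k, (hN k).2 ⟨hk, ?_⟩, Ne.symm (hk1 _ (hX k hk))⟩
    rcases hkE with ⟨h4, _⟩ | ⟨_, h5⟩
    · exact Or.inl h4
    · exact Or.inr h5
  -- the trees `T1 - e + g`
  have hTg : ∀ g ∈ N, Tree s t (insert g (T1.erase e)) U := by
    intro g hg
    by_cases hge : g = e
    · rw [hge, Finset.insert_erase he1]
      exact h1
    · have h3 := h2.1.1 g (hNT g hg)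
      refine h1.exch hx (fun h4 => hge (hT12 g h4 (hNT g hg))) h3.1 h3.2 ?_
      have h4 := hx1 _ (hnU g hg).1 (hnU g hg).2
      rcases hNE g hg with ⟨h5, h6⟩ | ⟨h5, h6⟩
      · rw [h5, h6]; exact Ne.symm h4
      · rw [h5, h6]; exact h4
  -- `v` is in `R1`
  have hnv := fun k (hk : k ∈ T1) (hke : k ≠ e) => notv h1 hx hx1 hk hke
  have hvR : v ∈ R1 := by
    have hc : cut s t T1 (fun u => decide (u = v)) = {e} := by
      refine mk_cut he1 ?_ ?_
      · rcases he with ⟨h4, h5⟩ | ⟨h4, h5⟩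
        · simp [h4, h5, Ne.symm hvb]
        · simp [h4, h5, Ne.symm hvb]
      · intro k hk hke
        have h3 := hnv k hk hke
        simp [h3.1, h3.2]
    have h3 := odd_of_not_good ng h1 h2 hs1 hs2 hi hR1 hR2 e1 e2 (Or.inl hc)
    by_contra hvR
    have h4 : R1.filter (fun u => decide (u = v) = true) = ∅ := by
      rw [Finset.filter_eq_empty_iff]
      intro u hu h5
      rw [decide_eq_true_eq] at h5
      exact hvR (h5 ▸ hu)
    rw [h4, Finset.card_empty] at h3
    exact absurd h3 (by decide)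
  -- a second edge of `T2` at `v`
  obtain ⟨g0, hg0, hg0e⟩ : ∃ g0 ∈ N, g0 ≠ e := by
    by_contra hcon
    push Not at hcon
    obtain ⟨g, hgS, hge, hgl, hgv⟩ := hd
    have hgE := hn g hgv
    have hgU := hS g hgS
    have hnv' : n g ∈ U ∧ n g ≠ v := by
      rcases hgE with ⟨h5, h6⟩ | ⟨h5, h6⟩
      · rw [h5, h6] at hgl
        rw [h6] at hgU
        exact ⟨hgU.2, Ne.symm hgl⟩
      · rw [h5, h6] at hgl
        rw [h5] at hgU
        exact ⟨hgU.1, hgl⟩
    have hg1 : g ∉ T1 := by
      intro h3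
      have h4 := hnv g h3 hge
      rcases hgv with h5 | h5
      · exact h4.1 h5
      · exact h4.2 h5
    have hg2 : g ∉ T2 := fun h3 => hge (hcon g ((hN g).2 ⟨h3, hgv⟩))
    have hc : cut s t T2 (fun u => decide (u = v)) = {e} := by
      refine mk_cut he2 ?_ ?_
      · rcases he with ⟨h4, h5⟩ | ⟨h4, h5⟩
        · simp [h4, h5, Ne.symm hvb]
        · simp [h4, h5, Ne.symm hvb]
      · intro k hk hke
        have h3 : ¬ (s k = v ∨ t k = v) := fun h3 => hke (hcon k ((hN k).2 ⟨hk, h3⟩))
        push Not at h3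
        simp [h3.1, h3.2]
    have hT : Tree s t (insert g (T2.erase e)) U := by
      refine h2.exch hc hg2 hgU.1 hgU.2 ?_
      rcases hgE with ⟨h5, h6⟩ | ⟨h5, h6⟩
      · rw [h5, h6]; simp [hnv'.2]
      · rw [h5, h6]; simp [hnv'.2]
    refine nd U (Finset.Subset.refl _) ?_ T1 (insert g (T2.erase e)) hs1 ?_ ?_ h1.1 hT.1
    · rw [← Finset.card_pair hvb]
      refine Finset.card_le_card ?_
      intro u hu
      rw [Finset.mem_insert, Finset.mem_singleton] at hu
      rcases hu with rfl | rfl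
      · exact hvU
      · exact hbU
    · intro k hk
      rw [Finset.mem_insert] at hk
      rcases hk with rfl | hk
      · exact hgS
      · exact hs2 (Finset.mem_of_mem_erase hk)
    · rw [Finset.disjoint_left]
      intro k hk1 hk2
      rw [Finset.mem_insert] at hk2
      rcases hk2 with rfl | hk2
      · exact hg1 hk1
      · exact (Finset.mem_erase.1 hk2).1 (hT12 k hk1 (Finset.mem_erase.1 hk2).2)
  -- the expanded edge
  obtain ⟨w, w', h, y, g, g', hT, hhe, hw, hw', hE, hy, hg, hg', hgw, hg'w, hgy, hg'y⟩ :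
      ∃ (w w' : V) (h : E) (y : V → Bool) (g g' : E), h ∈ T1 ∧ h ≠ e ∧ w ∈ U ∧ w' ∈ U ∧
        Ends s t w w' h ∧ cut s t T1 y = {h} ∧ g ∈ N ∧ g' ∈ N ∧ X g w ≠ X g v ∧
        X g' w' ≠ X g' v ∧ y (n g) = y w ∧ y (n g') = y w' := by
    have hne : n e ≠ n g0 := by
      intro h3
      refine hg0e (hPu g0 hg0 e heN (n g0) (hnU g0 hg0).1 (hPn g0 hg0) ?_)
      rw [← h3]
      exact hPn e heN
    obtain ⟨k, hk, a', ha', hkE, hk1, hk2⟩ := step h1 (hnU e heN).1 (hnU g0 hg0).1 hne
    have hke : k ≠ e := hk2 x e hx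
      (bool_ne (hx1 _ (hnU e heN).1 (hnU e heN).2) (hx1 _ (hnU g0 hg0).1 (hnU g0 hg0).2))
    obtain ⟨y, hy⟩ := h1.2 k hk
    exact expand h1 hx hx1 (fun g u => X g u ≠ X g v) N n hnU hPn hPu hPc _ (n e) a' k y e g0 hk
      hke (hnU e heN).1 ha' hkE hy heN (hPn e heN) rfl hg0
      (bool_ne (Ne.symm (hk1 y hy)) (Ne.symm (cross' hy hkE))) le_rfl
  have hyw : y w ≠ y w' := cross' hy hE
  have hgg : g ≠ g' := by
    rintro rfl
    exact hyw (hgy.symm.trans hg'y)
  -- the parity on one side
  have fin : ∀ (w w' : V) (g : E), w' ∈ U → Ends s t w w' h → y w ≠ y w' → g ∈ N →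
      X g w ≠ X g v → X g w' = X g v → y (n g) = y w →
      Odd (R1.filter (fun u => u ≠ v ∧ y u = y w')).card := by
    intro w w' g hw' hE hyw hg hgw hg'w hgy
    have hh2 : h ∉ T2 := fun h3 => hhe (hT12 h hT h3)
    have hhU := h1.1.1 h hT
    have hT2 : Tree s t (insert h (T2.erase g)) U := by
      refine h2.exch (hX g (hNT g hg)) hh2 hhU.1 hhU.2 ?_
      have h3 : X g w ≠ X g w' := by rw [hg'w]; exact hgw
      rcases hE with ⟨h5, h6⟩ | ⟨h5, h6⟩
      · rw [h5, h6]; exact h3
      · rw [h5, h6]; exact Ne.symm h3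
    have hhg : h ≠ g := fun h3 => hh2 (h3 ▸ hNT g hg)
    have hint : insert g (T1.erase e) ∩ insert h (T2.erase g) = {h} := by
      ext k
      rw [Finset.mem_inter, Finset.mem_insert, Finset.mem_insert, Finset.mem_erase,
        Finset.mem_erase, Finset.mem_singleton]
      constructor
      · rintro ⟨h3, h4⟩
        rcases h4 with h4 | h4
        · exact h4
        · exfalso
          rcases h3 with h3 | h3
          · exact h4.1 h3
          · exact h3.1 (hT12 k h3.2 h4.2)
      · rintro rfl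
        exact ⟨Or.inr ⟨hhe, hT⟩, Or.inl rfl⟩
    have hsa : insert g (T1.erase e) ⊆ S := by
      intro k hk
      rw [Finset.mem_insert] at hk
      rcases hk with rfl | hk
      · exact hs2 (hNT k hg)
      · exact hs1 (Finset.mem_of_mem_erase hk)
    have hsb : insert h (T2.erase g) ⊆ S := by
      intro k hk
      rw [Finset.mem_insert] at hk
      rcases hk with rfl | hk
      · exact hs1 hT
      · exact hs2 (Finset.mem_of_mem_erase hk)
    have hc : cut s t (insert g (T1.erase e)) (Function.update y v (y (n g))) = {h} := by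
      refine mk_cut (Finset.mem_insert_of_mem (Finset.mem_erase.2 ⟨hhe, hT⟩)) ?_ ?_
      · have h3 := hnv h hT hhe
        rw [Function.update_of_ne h3.1, Function.update_of_ne h3.2]
        exact (cross hy).2
      · intro k hk hkh
        rw [Finset.mem_insert] at hk
        rcases hk with rfl | hk
        · have h3 := (hnU k hg).2
          rcases hNE k hg with ⟨h5, h6⟩ | ⟨h5, h6⟩
          · rw [h5, h6, Function.update_self, Function.update_of_ne h3]
          · rw [h5, h6, Function.update_self, Function.update_of_ne h3]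
        · have h4 := Finset.mem_erase.1 hk
          have h3 := hnv k h4.2 h4.1
          rw [Function.update_of_ne h3.1, Function.update_of_ne h3.2]
          exact ncross hy h4.2 hkh
    have h3 := both e1 (odd_of_not_good ng (hTg g hg) hT2 hsa hsb hint hR1 hR2 e1 e2 (Or.inl hc))
      (y w')
    have h4 : R1.filter (fun u => u ≠ v ∧ y u = y w') =
        R1.filter (fun u => Function.update y v (y (n g)) u = y w') := by
      refine Finset.filter_congr fun u _ => ?_
      by_cases hu : u = v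
      · rw [hu, Function.update_self, hgy]
        constructor
        · intro h5; exact absurd rfl h5.1
        · intro h5; exact absurd h5 hyw
      · rw [Function.update_of_ne hu]
        exact ⟨fun h5 => h5.2, fun h5 => ⟨hu, h5⟩⟩
    rw [h4]
    exact h3
  have hq1 : X g w' = X g v := by
    by_contra h3
    exact hgg (hPu g hg g' hg' w' hw' h3 hg'w)
  have hq2 : X g' w = X g' v := by
    by_contra h3
    exact hgg (hPu g hg g' hg' w hw hgw h3)
  have o1 := fin w w' g hw' hE hyw hg hgw hq1 hgy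
  have o2 := fin w' w g' hw (ends_symm hE) (Ne.symm hyw) hg' hg'w hq2 hg'y
  -- the contradiction
  have c1 : (R1.erase v).card + 1 = R1.card := Finset.card_erase_add_one hvR
  have c2 := Finset.card_filter_add_card_filter_not (s := R1.erase v) (fun u => y u = y w')
  have c3 : (R1.erase v).filter (fun u => y u = y w') = R1.filter (fun u => u ≠ v ∧ y u = y w') := by
    ext u
    simp only [Finset.mem_filter, Finset.mem_erase]
    tauto
  have c4 : (R1.erase v).filter (fun u => ¬ y u = y w') = R1.filter (fun u => u ≠ v ∧ y u = y w) := by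
    ext u
    simp only [Finset.mem_filter, Finset.mem_erase]
    constructor
    · rintro ⟨⟨h3, h4⟩, h5⟩
      exact ⟨h4, h3, bool_ne h5 hyw⟩
    · rintro ⟨h3, h4, h5⟩
      exact ⟨⟨h4, h3⟩, fun h6 => hyw (h5.symm.trans h6)⟩
  rw [c3, c4] at c2
  rw [Nat.odd_iff] at o1 o2
  rw [Nat.even_iff] at e1
  omega

end Pool.Agent.TH362.TP
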