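import Pool.Agent.TH362.TP.Defs

/-!
Basic lemmas on joins and on edge sets of trees: symmetric differences of joins, the exchange
property, cuts with one edge and parity of joins.
-/

set_option autoImplicit false

namespace Pool.Agent.TH362.TP

open Finset Pool.Agent.TH362.TF

set_option linter.unusedSectionVars false
set_option linter.unusedVariables false

variable {V E : Type} [Fintype V] [DecidableEq V] [DecidableEq E]

namespace TreAux

omit [Fintype V] in
theorem deg_symm (s t : E → V) (A B : Finset E) (v : V) :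
    deg s t (symmDiff A B) v % 2 = (deg s t A v + deg s t B v) % 2 := by
  have h1 : deg s t (A ∩ B) v + deg s t (A \ B) v = deg s t A v :=
    Finset.sum_inter_add_sum_sdiff A B _
  have h2 : deg s t (B ∩ A) v + deg s t (B \ A) v = deg s t B v :=
    Finset.sum_inter_add_sum_sdiff B A _
  have h3 : deg s t (symmDiff A B) v = deg s t (A \ B) v + deg s t (B \ A) v := by
    rw [symmDiff_def, Finset.sup_eq_union]
    exact Finset.sum_union disjoint_sdiff_sdiff
  rw [Finset.inter_comm] at h2
  omega

omit [Fintype V] in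
theorem isJoin_symm {s t : E → V} {A B : Finset E} {R R' : Finset V} (h1 : IsJoin s t A R)
    (h2 : IsJoin s t B R') : IsJoin s t (symmDiff A B) (symmDiff R R') := by
  intro v
  rw [Finset.mem_symmDiff, ← h1 v, ← h2 v]
  simp only [Nat.odd_iff, deg_symm]
  omega

omit [Fintype V] in
theorem isJoin_empty (s t : E → V) : IsJoin s t ∅ ∅ := by
  intro v
  simp [deg]

omit [Fintype V] in
theorem isJoin_single {s t : E → V} {e : E} {u v : V} (h : Ends s t u v e) :
    IsJoin s t {e} (symmDiff {u} {v}) := by
  intro w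
  simp only [deg, Finset.sum_singleton, Finset.mem_symmDiff, Finset.mem_singleton]
  rcases h with ⟨rfl, rfl⟩ | ⟨rfl, rfl⟩
  · rw [@eq_comm _ w, @eq_comm _ w]
    by_cases h1 : s e = w <;> by_cases h2 : t e = w <;> simp [h1, h2, Nat.odd_iff]
  · rw [@eq_comm _ w, @eq_comm _ w]
    by_cases h1 : s e = w <;> by_cases h2 : t e = w <;> simp [h1, h2, Nat.odd_iff]

theorem cut_sub {s t : E → V} {A J : Finset E} {x : V → Bool} (hJ : J ⊆ A) :
    cut s t J x = J ∩ cut s t A x := by
  ext e
  simp only [cut, Finset.mem_filter, Finset.mem_inter]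
  constructor
  · rintro ⟨h1, h2⟩; exact ⟨h1, hJ h1, h2⟩
  · rintro ⟨h1, _, h2⟩; exact ⟨h1, h2⟩

theorem odd_eq {s t : E → V} {J : Finset E} {R : Finset V} (hR : IsJoin s t J R) :
    odd s t J = R := by
  ext v
  simp only [odd, Finset.mem_filter, Finset.mem_univ, true_and]
  exact hR v

theorem parity' {s t : E → V} {J : Finset E} {R : Finset V} (hR : IsJoin s t J R)
    (x : V → Bool) : (R.filter (fun v => x v = true)).card % 2 = (cut s t J x).card % 2 := by
  rw [← parity, odd_eq hR]

end TreAux

open TreAux

theorem join_mem_iff {s t : E → V} {A : Finset E} {x : V → Bool} {e : E}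
    (hx : cut s t A x = {e}) {J : Finset E} (hJ : J ⊆ A) {R : Finset V} (hR : IsJoin s t J R) :
    e ∈ J ↔ Odd (R.filter (fun v => x v = true)).card := by
  rw [Nat.odd_iff, parity' hR, cut_sub hJ, hx]
  by_cases h : e ∈ J
  · simp [h]
  · simp [h]

theorem Cn.const {s t : E → V} {A : Finset E} {U : Finset V} (hA : Cn s t A U) {z : V → Bool}
    (hz : cut s t A z = ∅) {u v : V} (hu : u ∈ U) (hv : v ∈ U) : z u = z v := by
  by_cases huv : u = v
  · rw [huv]
  obtain ⟨J, hJ, hR⟩ := hA.2 {u, v} (by
    intro w hw
    simp only [Finset.mem_insert, Finset.mem_singleton] at hw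
    rcases hw with rfl | rfl
    · exact hu
    · exact hv) (by rw [Finset.card_pair huv]; exact even_two)
  have h := parity' hR z
  rw [cut_sub hJ, hz, Finset.inter_empty, Finset.card_empty, Finset.filter_insert,
    Finset.filter_singleton] at h
  cases hzu : z u <;> cases hzv : z v <;> simp [hzu, hzv] at h ⊢

theorem cn_of_linked {s t : E → V} {A : Finset E} {U : Finset V}
    (hA : ∀ e ∈ A, s e ∈ U ∧ t e ∈ U) (a : V) (ha : a ∈ U)
    (hl : ∀ d ∈ U, Relation.ReflTransGen (fun u v => ∃ e ∈ A, Ends s t u v e) a d) :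
    Cn s t A U := by
  refine ⟨hA, ?_⟩
  have hd : ∀ d ∈ U, ∃ J ⊆ A, IsJoin s t J (symmDiff {a} {d}) := by
    intro d hdU
    have h := hl d hdU
    clear hdU
    induction h with
    | refl =>
      refine ⟨∅, Finset.empty_subset _, ?_⟩
      rw [symmDiff_self]
      exact isJoin_empty s t
    | tail _ h2 ih =>
      obtain ⟨J, hJ, hR⟩ := ih
      obtain ⟨e, he, hE⟩ := h2
      refine ⟨symmDiff J {e}, ?_, ?_⟩
      · intro f hf
        rw [Finset.mem_symmDiff, Finset.mem_singleton] at hf
        rcases hf with hf | hf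
        · exact hJ hf.1
        · rw [hf.1]; exact he
      · have := isJoin_symm hR (isJoin_single hE)
        rwa [symmDiff_assoc, symmDiff_symmDiff_cancel_left] at this
  have hR : ∀ R : Finset V, R ⊆ U → ∃ J ⊆ A, (Even R.card → IsJoin s t J R) ∧
      (¬ Even R.card → IsJoin s t J (symmDiff R {a})) := by
    intro R
    induction R using Finset.induction_on with
    | empty =>
      intro _
      exact ⟨∅, Finset.empty_subset _, fun _ => isJoin_empty s t, fun h => absurd (by simp) h⟩
    | insert d R hdR ih =>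
      intro hU
      obtain ⟨J, hJ, h1, h2⟩ := ih fun v hv => hU (Finset.mem_insert_of_mem hv)
      obtain ⟨K, hK, h3⟩ := hd d (hU (Finset.mem_insert_self _ _))
      have hins : insert d R = symmDiff R {d} := by
        ext w
        rw [Finset.mem_insert, Finset.mem_symmDiff, Finset.mem_singleton]
        by_cases hw : w = d
        · subst hw; simp [hdR]
        · simp [hw]
      refine ⟨symmDiff J K, ?_, ?_, ?_⟩
      · intro f hf
        rw [Finset.mem_symmDiff] at hf
        rcases hf with hf | hf
        · exact hJ hf.1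
        · exact hK hf.1
      · intro he
        rw [Finset.card_insert_of_notMem hdR] at he
        have hne : ¬ Even R.card := by
          intro h; rw [Nat.even_add_one] at he; exact he h
        have := isJoin_symm (h2 hne) h3
        rw [symmDiff_assoc, symmDiff_symmDiff_cancel_left] at this
        rwa [hins]
      · intro he
        rw [Finset.card_insert_of_notMem hdR] at he
        have hev : Even R.card := by
          by_contra h; exact he (Nat.even_add_one.2 h)
        have := isJoin_symm (h1 hev) h3
        rw [symmDiff_comm ({a} : Finset V) {d}, ← symmDiff_assoc] at this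
        rwa [hins]
  intro R hRU hev
  obtain ⟨J, hJ, h1, _⟩ := hR R hRU
  exact ⟨J, hJ, h1 hev⟩

theorem Tree.exch {s t : E → V} {A : Finset E} {U : Finset V} (hA : Tree s t A U)
    {y : V → Bool} {h k : E} (hy : cut s t A y = {h}) (hk : k ∉ A) (hs : s k ∈ U) (ht : t k ∈ U)
    (hky : y (s k) ≠ y (t k)) : Tree s t (insert k (A.erase h)) U := by
  have hst : s k ≠ t k := fun h => hky (by rw [h])
  have hhA : h ∈ A := by
    have : h ∈ cut s t A y := by rw [hy]; exact Finset.mem_singleton_self _
    exact (Finset.mem_filter.1 this).1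
  have hhk : h ≠ k := fun hh => hk (hh ▸ hhA)
  have hmem : ∀ e ∈ A, (y (s e) ≠ y (t e) ↔ e = h) := by
    intro e he
    have : e ∈ cut s t A y ↔ e = h := by rw [hy, Finset.mem_singleton]
    simpa [cut, he] using this
  obtain ⟨C, hCA, hC⟩ := hA.1.2 {s k, t k} (by
    intro w hw
    simp only [Finset.mem_insert, Finset.mem_singleton] at hw
    rcases hw with rfl | rfl
    · exact hs
    · exact ht) (by rw [Finset.card_pair hst]; exact even_two)
  have hhC : h ∈ C := by
    rw [join_mem_iff hy hCA hC, Finset.filter_insert, Finset.filter_singleton]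
    cases h1 : y (s k) <;> cases h2 : y (t k) <;> simp [h1, h2] at hky ⊢
  refine ⟨⟨?_, ?_⟩, ?_⟩
  · intro e he
    rw [Finset.mem_insert] at he
    rcases he with rfl | he
    · exact ⟨hs, ht⟩
    · exact hA.1.1 e (Finset.mem_of_mem_erase he)
  · intro R hRU hev
    obtain ⟨J, hJ, hR⟩ := hA.1.2 R hRU hev
    by_cases hhJ : h ∈ J
    · have hpair : symmDiff ({s k} : Finset V) {t k} = {s k, t k} := by
        ext w
        rw [Finset.mem_symmDiff, Finset.mem_singleton, Finset.mem_singleton, Finset.mem_insert,
          Finset.mem_singleton]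
        constructor
        · rintro (h | h)
          · exact Or.inl h.1
          · exact Or.inr h.1
        · rintro (h | h)
          · exact Or.inl ⟨h, fun h' => hst (h.symm.trans h')⟩
          · exact Or.inr ⟨h, fun h' => hst (h'.symm.trans h)⟩
      have hj := isJoin_symm (isJoin_symm hR hC) (isJoin_single (s := s) (t := t) (e := k)
        (u := s k) (v := t k) (Or.inl ⟨rfl, rfl⟩))
      rw [hpair, symmDiff_symmDiff_cancel_right] at hj
      refine ⟨_, ?_, hj⟩
      intro e he
      have hkJ : k ∉ J := fun hh => hk (hJ hh)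
      have hkC : k ∉ C := fun hh => hk (hCA hh)
      rw [Finset.mem_insert, Finset.mem_erase]
      by_cases hek : e = k
      · exact Or.inl hek
      right
      rw [Finset.mem_symmDiff, Finset.mem_singleton] at he
      rcases he with ⟨he, _⟩ | ⟨he, _⟩
      · rw [Finset.mem_symmDiff] at he
        rcases he with ⟨h1, h2⟩ | ⟨h1, h2⟩
        · exact ⟨fun hh => h2 (hh ▸ hhC), hJ h1⟩
        · exact ⟨fun hh => h2 (hh ▸ hhJ), hCA h1⟩
      · exact absurd he hek
    · refine ⟨J, ?_, hR⟩
      intro e he
      rw [Finset.mem_insert, Finset.mem_erase]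
      exact Or.inr ⟨fun hh => hhJ (hh ▸ he), hJ he⟩
  · intro l hl
    rw [Finset.mem_insert] at hl
    rcases hl with rfl | hl
    · refine ⟨y, ?_⟩
      ext e
      simp only [cut, Finset.mem_filter, Finset.mem_insert, Finset.mem_erase,
        Finset.mem_singleton]
      constructor
      · rintro ⟨h1 | ⟨h1, h2⟩, h3⟩
        · exact h1
        · exact absurd ((hmem e h2).1 h3) h1
      · rintro rfl
        exact ⟨Or.inl rfl, hky⟩
    · rw [Finset.mem_erase] at hl
      obtain ⟨hlh, hlA⟩ := hl
      obtain ⟨x, hx⟩ := hA.2 l hlA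
      have hmx : ∀ e ∈ A, (x (s e) ≠ x (t e) ↔ e = l) := by
        intro e he
        have : e ∈ cut s t A x ↔ e = l := by rw [hx, Finset.mem_singleton]
        simpa [cut, he] using this
      by_cases hxk : x (s k) = x (t k)
      · refine ⟨x, ?_⟩
        ext e
        simp only [cut, Finset.mem_filter, Finset.mem_insert, Finset.mem_erase,
          Finset.mem_singleton]
        constructor
        · rintro ⟨h1 | ⟨_, h2⟩, h3⟩
          · rw [h1] at h3; exact absurd hxk h3
          · exact (hmx e h2).1 h3
        · rintro rfl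
          exact ⟨Or.inr ⟨hlh, hlA⟩, (hmx e hlA).2 rfl⟩
      · refine ⟨fun v => xor (x v) (y v), ?_⟩
        ext e
        simp only [cut, Finset.mem_filter, Finset.mem_insert, Finset.mem_erase,
          Finset.mem_singleton]
        constructor
        · rintro ⟨h1 | ⟨h1, h2⟩, h3⟩
          · exfalso
            rw [h1] at h3
            revert h3 hxk hky
            cases x (s k) <;> cases x (t k) <;> cases y (s k) <;> cases y (t k) <;> simp
          · have h4 : y (s e) = y (t e) := by
              by_contra hh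
              exact h1 ((hmem e h2).1 hh)
            rw [h4] at h3
            refine (hmx e h2).1 fun h5 => h3 (by rw [h5])
        · rintro rfl
          refine ⟨Or.inr ⟨hlh, hlA⟩, ?_⟩
          have h4 : y (s e) = y (t e) := by
            by_contra hh
            exact hlh ((hmem e hlA).1 hh)
          have h5 := (hmx e hlA).2 rfl
          rw [h4]
          revert h5
          cases x (s e) <;> cases x (t e) <;> cases y (t e) <;> simp

theorem odd_of_not_good {s t : E → V} {S : Finset E} {U R1 R2 : Finset V} {T1 T2 : Finset E}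
    {e : E} (ng : ¬ Good s t S R1 R2) (h1 : Tree s t T1 U) (h2 : Tree s t T2 U) (hs1 : T1 ⊆ S)
    (hs2 : T2 ⊆ S) (hi : T1 ∩ T2 = {e}) (hR1 : R1 ⊆ U) (hR2 : R2 ⊆ U) (e1 : Even R1.card)
    (e2 : Even R2.card) {x : V → Bool} (hx : cut s t T1 x = {e} ∨ cut s t T2 x = {e}) :
    Odd (R1.filter (fun v => x v = true)).card := by
  rcases hx with hx | hx
  · obtain ⟨J1, hJ1, hj1⟩ := h1.1.2 R1 hR1 e1
    obtain ⟨J2, hJ2, hj2⟩ := h2.1.2 R2 hR2 e2
    rw [← join_mem_iff hx hJ1 hj1]
    by_contra he
    refine ng ⟨J1, J2, hJ1.trans hs1, hJ2.trans hs2, ?_, hj1, hj2⟩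
    rw [Finset.disjoint_left]
    intro f hf1 hf2
    have : f ∈ T1 ∩ T2 := Finset.mem_inter.2 ⟨hJ1 hf1, hJ2 hf2⟩
    rw [hi, Finset.mem_singleton] at this
    exact he (this ▸ hf1)
  · obtain ⟨J1, hJ1, hj1⟩ := h2.1.2 R1 hR1 e1
    obtain ⟨J2, hJ2, hj2⟩ := h1.1.2 R2 hR2 e2
    rw [← join_mem_iff hx hJ1 hj1]
    by_contra he
    refine ng ⟨J1, J2, hJ1.trans hs2, hJ2.trans hs1, ?_, hj1, hj2⟩
    rw [Finset.disjoint_left]
    intro f hf1 hf2
    have : f ∈ T1 ∩ T2 := Finset.mem_inter.2 ⟨hJ2 hf2, hJ1 hf1⟩
    rw [hi, Finset.mem_singleton] at this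
    exact he (this ▸ hf1)

end Pool.Agent.TH362.TP
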