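import Pool.Agent.TH362.TP.Defs
import Pool.Agent.TH362.TP.Tre

/-! Shrinking a side of a pair of spanning trees with one common edge. -/

set_option autoImplicit false
set_option linter.unusedSectionVars false

namespace Pool.Agent.TH362.TP

open Finset Pool.Agent.TH362.TF
variable {V E : Type} [Fintype V] [DecidableEq V] [DecidableEq E]

namespace Shr

theorem odd_eq {s t : E → V} {J : Finset E} {R : Finset V} (h : IsJoin s t J R) :
    odd s t J = R := by
  ext v
  rw [← h v]
  simp [odd]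

theorem cut_par {s t : E → V} {J : Finset E} {R : Finset V} (h : IsJoin s t J R)
    (x : V → Bool) : (R.filter (fun v => x v = true)).card % 2 = (cut s t J x).card % 2 := by
  rw [← parity, odd_eq h]

theorem pair_odd {d a : V} (hda : d ≠ a) (z : V → Bool) :
    Odd (({d, a} : Finset V).filter (fun v => z v = true)).card ↔ z d ≠ z a := by
  rw [filter_insert, filter_singleton]
  cases hd : z d <;> cases ha : z a <;> simp [hda]

theorem pair_even {d a : V} (hda : d ≠ a) : Even ({d, a} : Finset V).card := by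
  rw [card_pair hda]
  exact even_two

theorem deg_filter (s t : E → V) (J : Finset E) (W : Finset V)
    (hJ : ∀ g ∈ J, (s g ∈ W ↔ t g ∈ W)) (v : V) :
    deg s t (ins s t J W) v = if v ∈ W then deg s t J v else 0 := by
  unfold deg ins
  rw [sum_filter]
  split_ifs with hv
  · refine sum_congr rfl fun g hg => ?_
    by_cases h1 : s g ∈ W
    · rw [if_pos ⟨h1, (hJ g hg).1 h1⟩]
    · have h2 : t g ∉ W := fun h => h1 ((hJ g hg).2 h)
      rw [if_neg (fun h => h1 h.1), if_neg (fun h => h1 (by rw [h]; exact hv)),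
        if_neg (fun h => h2 (by rw [h]; exact hv))]
      rfl
  · refine sum_eq_zero fun g hg => ?_
    by_cases h1 : s g ∈ W ∧ t g ∈ W
    · rw [if_pos h1, if_neg (fun h => hv (by rw [← h]; exact h1.1)),
        if_neg (fun h => hv (by rw [← h]; exact h1.2))]
      rfl
    · rw [if_neg h1]

theorem ins_join {s t : E → V} {J : Finset E} {W R : Finset V}
    (hJ : ∀ g ∈ J, (s g ∈ W ↔ t g ∈ W)) (h : IsJoin s t J R) :
    IsJoin s t (ins s t J W) (R ∩ W) := by
  intro v
  rw [deg_filter s t J W hJ v, mem_inter, ← h v]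
  by_cases hv : v ∈ W
  · rw [if_pos hv]
    simp [hv]
  · rw [if_neg hv]
    simp [hv]

end Shr

open Shr

theorem shrink {s t : E → V} {S : Finset E} {U : Finset V} {T1 T2 : Finset E} {e : E}
    (nd : NoDouble s t S U) (h1 : Tree s t T1 U) (h2 : Tree s t T2 U) (hs1 : T1 ⊆ S)
    (hs2 : T2 ⊆ S) (hi : T1 ∩ T2 = {e}) (a b : V) (he : Ends s t a b e) (x : V → Bool)
    (hx : cut s t T1 x = {e}) (hc : 2 ≤ (U.filter (fun v => x v = x a)).card) :
    ∃ (T1' T2' : Finset E) (x' : V → Bool), Tree s t T1' U ∧ Tree s t T2' U ∧ T1' ⊆ S ∧ T2' ⊆ S ∧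
      T1' ∩ T2' = {e} ∧ cut s t T1' x' = {e} ∧
      (U.filter (fun v => x' v = x' a)).card < (U.filter (fun v => x v = x a)).card := by
  classical
  have heI : e ∈ T1 ∩ T2 := by rw [hi]; exact mem_singleton_self e
  have he1 : e ∈ T1 := (mem_inter.1 heI).1
  have he2 : e ∈ T2 := (mem_inter.1 heI).2
  have hab : x a ≠ x b := by
    have h3 : e ∈ cut s t T1 x := by rw [hx]; exact mem_singleton_self e
    have h4 := (mem_filter.1 h3).2
    rcases he with ⟨c1, c2⟩ | ⟨c1, c2⟩
    · rw [c1, c2] at h4; exact h4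
    · rw [c1, c2] at h4; exact h4.symm
  have haU : a ∈ U := by
    rcases he with ⟨c1, c2⟩ | ⟨c1, c2⟩
    · rw [← c1]; exact (h1.1.1 e he1).1
    · rw [← c2]; exact (h1.1.1 e he1).2
  have hbU : b ∈ U := by
    rcases he with ⟨c1, c2⟩ | ⟨c1, c2⟩
    · rw [← c2]; exact (h1.1.1 e he1).2
    · rw [← c1]; exact (h1.1.1 e he1).1
  obtain ⟨W, hW⟩ : ∃ W : Finset V, W = U.filter (fun v => x v = x a) := ⟨_, rfl⟩
  have mW : ∀ v, v ∈ W ↔ v ∈ U ∧ x v = x a := fun v => by rw [hW, mem_filter]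
  have haW : a ∈ W := (mW a).2 ⟨haU, rfl⟩
  have hbW : b ∉ W := fun h => hab ((mW b).1 h).2.symm
  have hWU : W ⊆ U := fun v hv => ((mW v).1 hv).1
  -- edges of T1 other than e do not leave W
  have hx1 : ∀ g ∈ T1, g ≠ e → x (s g) = x (t g) := by
    intro g hg hge
    by_contra hne
    have : g ∈ cut s t T1 x := mem_filter.2 ⟨hg, hne⟩
    rw [hx, mem_singleton] at this
    exact hge this
  have hst1 : ∀ J ⊆ T1, e ∉ J → ∀ g ∈ J, (s g ∈ W ↔ t g ∈ W) := by
    intro J hJ heJ g hg
    have hgx := hx1 g (hJ hg) (fun h => heJ (h ▸ hg))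
    have hgU := h1.1.1 g (hJ hg)
    rw [mW, mW, hgx]
    exact ⟨fun h => ⟨hgU.2, h.2⟩, fun h => ⟨hgU.1, h.2⟩⟩
  have heW : ¬ (s e ∈ W ∧ t e ∈ W) := by
    rintro ⟨c1, c2⟩
    rcases he with ⟨d1, d2⟩ | ⟨d1, d2⟩
    · exact hbW (d2 ▸ c2)
    · exact hbW (d1 ▸ c1)
  -- step 1
  have hC1 : Cn s t (ins s t T1 W) W := by
    refine ⟨fun g hg => (mem_filter.1 hg).2, fun R hR hRe => ?_⟩
    obtain ⟨J, hJ, hJR⟩ := h1.1.2 R (hR.trans hWU) hRe
    have heJ : e ∉ J := by
      rw [join_mem_iff hx hJ hJR]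
      rw [Nat.not_odd_iff_even]
      by_cases hxa : x a = true
      · rw [filter_true_of_mem]
        · exact hRe
        · intro v hv
          rw [((mW v).1 (hR hv)).2, hxa]
      · rw [filter_false_of_mem]
        · simp
        · intro v hv
          rw [((mW v).1 (hR hv)).2]
          exact hxa
    refine ⟨ins s t J W, fun g hg => ?_, ?_⟩
    · obtain ⟨g1, g2⟩ := mem_filter.1 hg
      exact mem_filter.2 ⟨hJ g1, g2⟩
    · have := ins_join (hst1 J hJ heJ) hJR
      rwa [inter_eq_left.2 hR] at this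
  -- step 2
  have hC2 : ¬ Cn s t (ins s t T2 W) W := by
    intro hC2
    refine nd W hWU (hW ▸ hc) (ins s t T1 W) (ins s t T2 W)
      ((filter_subset _ _).trans hs1) ((filter_subset _ _).trans hs2) ?_ hC1 hC2
    rw [disjoint_left]
    intro g hg1 hg2
    obtain ⟨a1, a2⟩ := mem_filter.1 hg1
    have : g ∈ T1 ∩ T2 := mem_inter.2 ⟨a1, (mem_filter.1 hg2).1⟩
    rw [hi, mem_singleton] at this
    exact heW (this ▸ a2)
  obtain ⟨d, hdW, hdl⟩ : ∃ d ∈ W, ¬ Relation.ReflTransGen
      (fun u v => ∃ g ∈ ins s t T2 W, Ends s t u v g) a d := by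
    by_contra hcon
    push Not at hcon
    exact hC2 (cn_of_linked (fun g hg => (mem_filter.1 hg).2) a haW hcon)
  obtain ⟨lk, hlk⟩ : ∃ lk : V → V → Prop, lk = (fun u v => ∃ g ∈ ins s t T2 W, Ends s t u v g) :=
    ⟨_, rfl⟩
  rw [← hlk] at hdl
  have hsym : ∀ u v, lk u v → lk v u := by
    rw [hlk]
    rintro u v ⟨g, hg, hE⟩
    exact ⟨g, hg, Or.symm hE⟩
  have hsymR : ∀ u v, Relation.ReflTransGen lk u v → Relation.ReflTransGen lk v u := by
    intro u v h
    induction h with
    | refl => exact Relation.ReflTransGen.refl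
    | tail _ hbc ih => exact Relation.ReflTransGen.head (hsym _ _ hbc) ih
  obtain ⟨D, hD⟩ : ∃ D : V → Bool, D = fun v => decide (Relation.ReflTransGen lk d v) := ⟨_, rfl⟩
  have mD : ∀ v, D v = true ↔ Relation.ReflTransGen lk d v := by
    intro v
    rw [hD]
    exact decide_eq_true_iff
  have hDd : D d = true := (mD d).2 Relation.ReflTransGen.refl
  have hDa : D a ≠ true := fun h => hdl (hsymR _ _ ((mD a).1 h))
  have hda : d ≠ a := fun h => hDa (h ▸ hDd)
  have hDW : ∀ v, D v = true → v ∈ W := by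
    intro v hv
    rcases ((mD v).1 hv).cases_tail with h | ⟨c, _, hc2⟩
    · rw [h]; exact hdW
    · rw [hlk] at hc2
      obtain ⟨g, hg, hE⟩ := hc2
      have hgW := (mem_filter.1 hg).2
      rcases hE with ⟨_, c2⟩ | ⟨c1, _⟩
      · rw [← c2]; exact hgW.2
      · rw [← c1]; exact hgW.1
  -- step 3
  obtain ⟨J, hJ, hJR⟩ := h2.1.2 {d, a} (by
    intro v hv
    rw [mem_insert, mem_singleton] at hv
    rcases hv with rfl | rfl
    · exact hWU hdW
    · exact haU) (pair_even hda)
  obtain ⟨k, hkJ, hkD⟩ : ∃ k ∈ J, D (s k) ≠ D (t k) := by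
    have h3 := cut_par hJR D
    have h4 : Odd (({d, a} : Finset V).filter (fun v => D v = true)).card := by
      rw [pair_odd hda, hDd]
      exact fun h => hDa h.symm
    rw [Nat.odd_iff.1 h4] at h3
    have h5 : (cut s t J D).Nonempty := by
      rw [← card_pos]
      omega
    obtain ⟨k, hk⟩ := h5
    exact ⟨k, (mem_filter.1 hk).1, (mem_filter.1 hk).2⟩
  have hk2 : k ∈ T2 := hJ hkJ
  obtain ⟨p, q, hpq, hp, hq⟩ : ∃ p q : V, Ends s t p q k ∧ D p = true ∧ D q ≠ true := by
    cases h3 : D (s k) with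
    | true =>
      refine ⟨s k, t k, Or.inl ⟨rfl, rfl⟩, h3, ?_⟩
      rw [h3] at hkD
      exact hkD.symm
    | false =>
      refine ⟨t k, s k, Or.inr ⟨rfl, rfl⟩, ?_, ?_⟩
      · rw [h3] at hkD
        cases h4 : D (t k) with
        | true => rfl
        | false => exact absurd h4.symm hkD
      · rw [h3]; simp
  have hpW := hDW p hp
  have hqU : q ∈ U := by
    rcases hpq with ⟨_, c2⟩ | ⟨c1, _⟩
    · rw [← c2]; exact (h2.1.1 k hk2).2
    · rw [← c1]; exact (h2.1.1 k hk2).1
  have hqW : q ∉ W := by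
    intro hqW
    apply hq
    rw [mD]
    refine ((mD p).1 hp).tail ?_
    rw [hlk]
    refine ⟨k, mem_filter.2 ⟨hk2, ?_⟩, hpq⟩
    rcases hpq with ⟨c1, c2⟩ | ⟨c1, c2⟩
    · rw [c1, c2]; exact ⟨hpW, hqW⟩
    · rw [c1, c2]; exact ⟨hqW, hpW⟩
  have hkW : ¬ (s k ∈ W ∧ t k ∈ W) := by
    rintro ⟨c1, c2⟩
    rcases hpq with ⟨d1, d2⟩ | ⟨d1, d2⟩
    · exact hqW (d2 ▸ c2)
    · exact hqW (d1 ▸ c1)
  have hpa : p ≠ a := fun h => hDa (h ▸ hp)
  obtain ⟨z, hz⟩ := h2.2 k hk2
  have hz1 : ∀ u v, lk u v → z u = z v := by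
    rw [hlk]
    rintro u v ⟨g, hg, hE⟩
    obtain ⟨g1, g2⟩ := mem_filter.1 hg
    have hgk : g ≠ k := fun h => hkW (h ▸ g2)
    have h3 : z (s g) = z (t g) := by
      by_contra hne
      have : g ∈ cut s t T2 z := mem_filter.2 ⟨g1, hne⟩
      rw [hz, mem_singleton] at this
      exact hgk this
    rcases hE with ⟨c1, c2⟩ | ⟨c1, c2⟩
    · rw [← c1, ← c2]; exact h3
    · rw [← c1, ← c2]; exact h3.symm
  have hz2 : ∀ v, Relation.ReflTransGen lk d v → z v = z d := by
    intro v h
    induction h with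
    | refl => rfl
    | tail _ hbc ih => rw [← hz1 _ _ hbc, ih]
  have hzp : z p = z d := hz2 p ((mD p).1 hp)
  have hzda : z d ≠ z a := by
    rw [← pair_odd hda, ← join_mem_iff hz hJ hJR]
    exact hkJ
  have hzpa : z p ≠ z a := by rw [hzp]; exact hzda
  -- step 4
  obtain ⟨J1, hJ1, hJ1R⟩ := hC1.2 {p, a} (by
    intro v hv
    rw [mem_insert, mem_singleton] at hv
    rcases hv with rfl | rfl
    · exact hpW
    · exact haW) (pair_even hpa)
  obtain ⟨h, hhJ, hhz⟩ : ∃ h ∈ J1, z (s h) ≠ z (t h) := by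
    have h3 := cut_par hJ1R z
    have h4 : Odd (({p, a} : Finset V).filter (fun v => z v = true)).card := by
      rw [pair_odd hpa]
      exact hzpa
    rw [Nat.odd_iff.1 h4] at h3
    have h5 : (cut s t J1 z).Nonempty := by
      rw [← card_pos]
      omega
    obtain ⟨k, hk⟩ := h5
    exact ⟨k, (mem_filter.1 hk).1, (mem_filter.1 hk).2⟩
  obtain ⟨hh1, hhW⟩ := mem_filter.1 (hJ1 hhJ)
  have hJ1T : J1 ⊆ T1 := hJ1.trans (filter_subset _ _)
  have hhe : h ≠ e := fun h' => heW (h' ▸ hhW)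
  have hh2 : h ∉ T2 := by
    intro h3
    have : h ∈ T1 ∩ T2 := mem_inter.2 ⟨hh1, h3⟩
    rw [hi, mem_singleton] at this
    exact hhe this
  obtain ⟨y, hy⟩ := h1.2 h hh1
  have hypa : y p ≠ y a := by
    rw [← pair_odd hpa, ← join_mem_iff hy hJ1T hJ1R]
    exact hhJ
  have hk1 : k ∉ T1 := by
    intro h3
    have : k ∈ T1 ∩ T2 := mem_inter.2 ⟨h3, hk2⟩
    rw [hi, mem_singleton] at this
    subst this
    rcases he with ⟨c1, c2⟩ | ⟨c1, c2⟩ <;> rcases hpq with ⟨d1, d2⟩ | ⟨d1, d2⟩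
    · exact hpa (d1.symm.trans c1)
    · exact hqW (by rw [← d1, c1]; exact haW)
    · exact hqW (by rw [← d2, c2]; exact haW)
    · exact hpa (d2.symm.trans c2)
  -- y does not cross the other edges of T1
  have hy1 : ∀ g ∈ T1, g ≠ h → y (s g) = y (t g) := by
    intro g hg hge
    by_contra hne
    have : g ∈ cut s t T1 y := mem_filter.2 ⟨hg, hne⟩
    rw [hy, mem_singleton] at this
    exact hge this
  have hyab : y a = y b := by
    have h3 := hy1 e he1 hhe.symm
    rcases he with ⟨c1, c2⟩ | ⟨c1, c2⟩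
    · rw [c1, c2] at h3; exact h3
    · rw [c1, c2] at h3; exact h3.symm
  have hxq : x q ≠ x a := fun h3 => hqW ((mW q).2 ⟨hqU, h3⟩)
  have hxqb : x q = x b := by
    revert hxq hab
    cases x q <;> cases x a <;> cases x b <;> simp
  have hyqb : y q = y b := by
    by_cases hqb : q = b
    · rw [hqb]
    obtain ⟨J', hJ', hJ'R⟩ := h1.1.2 {q, b} (by
      intro v hv
      rw [mem_insert, mem_singleton] at hv
      rcases hv with rfl | rfl
      · exact hqU
      · exact hbU) (pair_even hqb)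
    have heJ' : e ∉ J' := by
      rw [join_mem_iff hx hJ' hJ'R, pair_odd hqb]
      exact fun h3 => h3 hxqb
    have h3 := ins_join (hst1 J' hJ' heJ') hJ'R
    have h4 : ({q, b} : Finset V) ∩ W = ∅ := by
      ext v
      rw [mem_inter, mem_insert, mem_singleton]
      constructor
      · rintro ⟨rfl | rfl, hv⟩
        · exact absurd hv hqW
        · exact absurd hv hbW
      · intro hv
        exact absurd hv (notMem_empty v)
    rw [h4] at h3
    have hsub : ins s t J' W ⊆ T1 := (filter_subset _ _).trans hJ'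
    have h5 : h ∉ ins s t J' W := by
      rw [join_mem_iff hy hsub h3]
      simp
    have h6 : h ∉ J' := fun h7 => h5 (mem_filter.2 ⟨h7, hhW⟩)
    rw [join_mem_iff hy hJ' hJ'R, pair_odd hqb] at h6
    exact not_not.1 h6
  have hypq : y p ≠ y q := by
    rw [hyqb, ← hyab]
    exact hypa
  -- the new trees
  obtain ⟨x', hx'⟩ : ∃ x' : V → Bool, ∀ v, x' v = ((x v == x a) && (y v == y a)) :=
    ⟨_, fun _ => rfl⟩
  refine ⟨insert k (T1.erase h), insert h (T2.erase k), x', ?_, ?_, ?_, ?_, ?_, ?_, ?_⟩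
  · refine Tree.exch h1 hy hk1 (h2.1.1 k hk2).1 (h2.1.1 k hk2).2 ?_
    rcases hpq with ⟨c1, c2⟩ | ⟨c1, c2⟩
    · rw [c1, c2]; exact hypq
    · rw [c1, c2]; exact hypq.symm
  · exact Tree.exch h2 hz hh2 (h1.1.1 h hh1).1 (h1.1.1 h hh1).2 hhz
  · intro g hg
    rcases mem_insert.1 hg with h3 | h3
    · rw [h3]; exact hs2 hk2
    · exact hs1 (mem_of_mem_erase h3)
  · intro g hg
    rcases mem_insert.1 hg with h3 | h3
    · rw [h3]; exact hs1 hh1
    · exact hs2 (mem_of_mem_erase h3)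
  · ext g
    rw [mem_inter, mem_insert, mem_insert, mem_erase, mem_erase, mem_singleton]
    constructor
    · rintro ⟨h3, h4⟩
      rcases h3 with h3 | ⟨h3, h5⟩
      · exfalso
        subst h3
        rcases h4 with h4 | ⟨h4, _⟩
        · exact hk1 (h4 ▸ hh1)
        · exact h4 rfl
      · rcases h4 with h4 | ⟨_, h6⟩
        · exact absurd h4 h3
        · have : g ∈ T1 ∩ T2 := mem_inter.2 ⟨h5, h6⟩
          rw [hi, mem_singleton] at this
          exact this
    · rintro rfl
      exact ⟨Or.inr ⟨hhe.symm, he1⟩, Or.inr ⟨fun h3 => hk1 (h3 ▸ he1), he2⟩⟩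
  · ext g
    rw [mem_singleton]
    unfold cut
    rw [mem_filter, mem_insert, mem_erase]
    constructor
    · rintro ⟨h3, h4⟩
      by_contra hge
      apply h4
      rcases h3 with h3 | ⟨h3, h5⟩
      · subst h3
        have e1 : ((x p == x a) && (y p == y a)) = false := by
          have : (y p == y a) = false := by simpa using hypa
          rw [this, Bool.and_false]
        have e2 : ((x q == x a) && (y q == y a)) = false := by
          have : (x q == x a) = false := by simpa using hxq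
          rw [this, Bool.false_and]
        rcases hpq with ⟨c1, c2⟩ | ⟨c1, c2⟩
        · rw [c1, c2, hx', hx', e1, e2]
        · rw [c1, c2, hx', hx', e1, e2]
      · rw [hx', hx', hx1 g h5 hge, hy1 g h5 h3]
    · rintro rfl
      refine ⟨Or.inr ⟨hhe.symm, he1⟩, ?_⟩
      have e1 : ((x a == x a) && (y a == y a)) = true := by simp
      have e2 : ((x b == x a) && (y b == y a)) = false := by
        have : (x b == x a) = false := by simpa using hab.symm
        rw [this, Bool.false_and]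
      rcases he with ⟨c1, c2⟩ | ⟨c1, c2⟩
      · rw [c1, c2, hx', hx', e1, e2]; simp
      · rw [c1, c2, hx', hx', e1, e2]; simp
  · apply card_lt_card
    rw [ssubset_iff_of_subset]
    · refine ⟨p, mem_filter.2 ⟨hWU hpW, ((mW p).1 hpW).2⟩, ?_⟩
      rw [mem_filter]
      rintro ⟨_, h3⟩
      rw [hx', hx'] at h3
      simp only [beq_self_eq_true, Bool.and_self, Bool.and_eq_true, beq_iff_eq] at h3
      exact hypa h3.2
    · intro v hv
      rw [mem_filter] at hv ⊢
      obtain ⟨h3, h4⟩ := hv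
      rw [hx', hx'] at h4
      simp only [beq_self_eq_true, Bool.and_self, Bool.and_eq_true, beq_iff_eq] at h4
      exact ⟨h3, h4.1⟩

end Pool.Agent.TH362.TP
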