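import Pool.Agent.TH362.TP.Defs
import Mathlib.Data.Finset.Card
import Mathlib.Tactic.Linarith
import Mathlib.Tactic.Ring

/-!
Decomposition of tight graphs into two spanning trees.
-/

set_option autoImplicit false

namespace Pool.Agent.TH362.TP
open Finset Pool.Agent.TH362.TF

variable {V E : Type} [Fintype V] [DecidableEq V] [DecidableEq E]

namespace Tight

set_option linter.unusedSectionVars false

/-- `e` joins `a` and `b`. -/
def Ends (s t : E → V) (e : E) (a b : V) : Prop := (s e = a ∧ t e = b) ∨ (s e = b ∧ t e = a)

theorem deg_insert {s t : E → V} {J : Finset E} {e : E} (he : e ∉ J) (w : V) :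
    deg s t (insert e J) w =
      ((if s e = w then 1 else 0) + (if t e = w then 1 else 0)) + deg s t J w := by
  unfold deg
  rw [sum_insert he]

theorem deg_erase {s t : E → V} {J : Finset E} {e : E} (he : e ∈ J) (w : V) :
    deg s t J w =
      ((if s e = w then 1 else 0) + (if t e = w then 1 else 0)) + deg s t (J.erase e) w := by
  rw [← deg_insert (notMem_erase e J), insert_erase he]

theorem ct_ends {s t : E → V} {e : E} {a b : V} (h : Ends s t e a b) (w : V) :
    (if s e = w then 1 else 0) + (if t e = w then 1 else 0) =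
      (if a = w then 1 else 0) + (if b = w then 1 else 0) := by
  rcases h with ⟨h1, h2⟩ | ⟨h1, h2⟩
  · rw [h1, h2]
  · rw [h1, h2, add_comm]

theorem deg_congr {s t s' t' : E → V} {J : Finset E} (h : ∀ l ∈ J, s l = s' l ∧ t l = t' l)
    (w : V) : deg s t J w = deg s' t' J w := by
  unfold deg
  refine sum_congr rfl fun l hl => ?_
  rw [(h l hl).1, (h l hl).2]

theorem cut_congr {s t s' t' : E → V} {J : Finset E} (h : ∀ l ∈ J, s l = s' l ∧ t l = t' l)
    (x : V → Bool) : cut s t J x = cut s' t' J x := by
  unfold cut
  refine filter_congr fun l hl => ?_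
  rw [(h l hl).1, (h l hl).2]

theorem tree_congr {s t s' t' : E → V} {A : Finset E} {U : Finset V}
    (h : ∀ l ∈ A, s l = s' l ∧ t l = t' l) (hT : Tree s t A U) : Tree s' t' A U := by
  obtain ⟨⟨h1, h2⟩, h3⟩ := hT
  refine ⟨⟨fun e he => ?_, fun R hR hev => ?_⟩, fun e he => ?_⟩
  · rw [← (h e he).1, ← (h e he).2]
    exact h1 e he
  · obtain ⟨J, hJ, hj⟩ := h2 R hR hev
    refine ⟨J, hJ, fun v => ?_⟩
    rw [← deg_congr (fun l hl => h l (hJ hl)) v]
    exact hj v
  · obtain ⟨x, hx⟩ := h3 e he
    exact ⟨x, by rw [← cut_congr h x]; exact hx⟩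

theorem toggle (Q : Finset V) (u : V) (hQ : Odd Q.card) :
    ∃ Q' : Finset V, Even Q'.card ∧ ∀ w, w ∈ Q' ↔ ¬ (w ∈ Q ↔ w = u) := by
  by_cases hu : u ∈ Q
  · refine ⟨Q.erase u, ?_, fun w => ?_⟩
    · rw [card_erase_of_mem hu]
      obtain ⟨k, hk⟩ := hQ
      exact ⟨k, by omega⟩
    · rw [mem_erase]
      by_cases hw : w = u
      · subst hw; simp [hu]
      · simp [hw]
  · refine ⟨insert u Q, ?_, fun w => ?_⟩
    · rw [card_insert_of_notMem hu]
      obtain ⟨k, hk⟩ := hQ
      exact ⟨k + 1, by omega⟩
    · rw [mem_insert]
      by_cases hw : w = u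
      · subst hw; simp [hu]
      · simp [hw]

theorem odd_erase {R : Finset V} {v : V} (hv : v ∈ R) (h : Even R.card) :
    Odd (R.erase v).card := by
  rw [card_erase_of_mem hv]
  have := card_pos.2 ⟨v, hv⟩
  obtain ⟨k, hk⟩ := h
  exact ⟨k - 1, by omega⟩

/-- adding a leaf to a tree -/
theorem leaf {s t : E → V} {A : Finset E} {U : Finset V} {v u : V} {e : E}
    (hT : Tree s t A U) (hv : v ∉ U) (hu : u ∈ U) (he : e ∉ A) (hE : Ends s t e v u) :
    Tree s t (insert e A) (insert v U) := by
  obtain ⟨⟨h1, h2⟩, h3⟩ := hT
  have hvu : v ≠ u := fun h => hv (h ▸ hu)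
  refine ⟨⟨fun l hl => ?_, fun R hR hev => ?_⟩, fun l hl => ?_⟩
  · rcases mem_insert.1 hl with rfl | hl
    · rcases hE with ⟨e1, e2⟩ | ⟨e1, e2⟩
      · rw [e1, e2]; exact ⟨mem_insert_self _ _, mem_insert_of_mem hu⟩
      · rw [e1, e2]; exact ⟨mem_insert_of_mem hu, mem_insert_self _ _⟩
    · exact ⟨mem_insert_of_mem (h1 l hl).1, mem_insert_of_mem (h1 l hl).2⟩
  · by_cases hvR : v ∈ R
    · obtain ⟨R', hR'e, hR'⟩ := toggle (R.erase v) u (odd_erase hvR hev)
      have hsub : R' ⊆ U := by
        intro w hw
        by_cases hwu : w = u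
        · rw [hwu]; exact hu
        · have h5 := (hR' w).1 hw
          have h6 : w ∈ R.erase v := by
            by_contra h7
            exact h5 ⟨fun h8 => absurd h8 h7, fun h8 => absurd h8 hwu⟩
          obtain ⟨h7, h8⟩ := mem_erase.1 h6
          exact (mem_insert.1 (hR h8)).resolve_left h7
      obtain ⟨J, hJ, hj⟩ := h2 R' hsub hR'e
      refine ⟨insert e J, insert_subset_insert _ hJ, fun w => ?_⟩
      rw [deg_insert (fun h => he (hJ h)), ct_ends hE]
      have h4 := hj w
      have h5 := hR' w
      rw [mem_erase] at h5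
      have h6 : v ∉ R' := fun h => hv (hsub h)
      rw [Nat.odd_iff] at h4 ⊢
      by_cases hwv : v = w
      · subst hwv
        rw [if_pos rfl, if_neg (Ne.symm hvu)]
        have : ¬ (deg s t J v % 2 = 1) := fun h => h6 (h4.1 h)
        constructor
        · intro _; exact hvR
        · intro _; omega
      · rw [if_neg hwv]
        by_cases hwu : u = w
        · subst hwu
          rw [if_pos rfl]
          have h7 : u ∈ R' ↔ ¬ (u ∈ R) := by
            rw [h5]
            simp [Ne.symm hwv]
          rw [h7] at h4
          constructor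
          · intro h8
            by_contra h9
            have := h4.2 h9
            omega
          · intro h8
            have : ¬ (deg s t J u % 2 = 1) := fun h => h4.1 h h8
            omega
        · rw [if_neg hwu]
          have h7 : w ∈ R' ↔ w ∈ R := by
            rw [h5]
            simp [Ne.symm hwv, Ne.symm hwu]
          rw [h7] at h4
          rw [← h4]
          omega
    · have hsub : R ⊆ U := fun w hw =>
        (mem_insert.1 (hR hw)).resolve_left (fun h => hvR (h ▸ hw))
      obtain ⟨J, hJ, hj⟩ := h2 R hsub hev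
      exact ⟨J, hJ.trans (subset_insert _ _), hj⟩
  · rcases mem_insert.1 hl with rfl | hl
    · refine ⟨fun w => decide (w = v), ?_⟩
      ext k
      simp only [cut, mem_filter, mem_insert, mem_singleton]
      constructor
      · rintro ⟨h4 | h4, h5⟩
        · exact h4
        · exfalso
          apply h5
          have h6 : s k ≠ v := fun h => hv (h ▸ (h1 k h4).1)
          have h7 : t k ≠ v := fun h => hv (h ▸ (h1 k h4).2)
          simp [h6, h7]
      · rintro rfl
        refine ⟨Or.inl rfl, ?_⟩
        rcases hE with ⟨e1, e2⟩ | ⟨e1, e2⟩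
        · rw [e1, e2]; simp [Ne.symm hvu]
        · rw [e1, e2]; simp [Ne.symm hvu]
    · obtain ⟨x, hx⟩ := h3 l hl
      refine ⟨Function.update x v (x u), ?_⟩
      ext k
      have hx' := Finset.ext_iff.1 hx k
      simp only [cut, mem_filter, mem_insert, mem_singleton] at hx' ⊢
      constructor
      · rintro ⟨h4 | h4, h5⟩
        · exfalso
          apply h5
          subst h4
          rcases hE with ⟨e1, e2⟩ | ⟨e1, e2⟩
          · rw [e1, e2, Function.update_self, Function.update_of_ne (Ne.symm hvu)]
          · rw [e1, e2, Function.update_self, Function.update_of_ne (Ne.symm hvu)]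
        · have h6 : s k ≠ v := fun h => hv (h ▸ (h1 k h4).1)
          have h7 : t k ≠ v := fun h => hv (h ▸ (h1 k h4).2)
          rw [Function.update_of_ne h6, Function.update_of_ne h7] at h5
          exact hx'.1 ⟨h4, h5⟩
      · intro h4
        obtain ⟨h5, h8⟩ := hx'.2 h4
        have h6 : s k ≠ v := fun h => hv (h ▸ (h1 k h5).1)
        have h7 : t k ≠ v := fun h => hv (h ▸ (h1 k h5).2)
        rw [Function.update_of_ne h6, Function.update_of_ne h7]
        exact ⟨Or.inr h5, h8⟩

/-- subdividing an edge of a tree -/
theorem subdiv {s t : E → V} {A : Finset E} {U : Finset V} {v u x : V} {e f : E}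
    (hT : Tree (Function.update s e u) (Function.update t e x) A U) (heA : e ∈ A)
    (hv : v ∉ U) (hf : f ∉ A) (hE : Ends s t e v u) (hF : Ends s t f v x) :
    Tree s t (insert f A) (insert v U) := by
  obtain ⟨⟨h1, h2⟩, h3⟩ := hT
  have hfe : f ≠ e := fun h => hf (h ▸ heA)
  have hux : u ∈ U ∧ x ∈ U := by
    have := h1 e heA
    rwa [Function.update_self, Function.update_self] at this
  obtain ⟨hu, hx⟩ := hux
  have hvu : v ≠ u := fun h => hv (h ▸ hu)
  have hvx : v ≠ x := fun h => hv (h ▸ hx)
  have hA : ∀ l ∈ A, l ≠ e → s l ∈ U ∧ t l ∈ U := by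
    intro l hl hle
    have := h1 l hl
    rwa [Function.update_of_ne hle, Function.update_of_ne hle] at this
  have hdegne : ∀ J : Finset E, e ∉ J → ∀ w,
      deg (Function.update s e u) (Function.update t e x) J w = deg s t J w := by
    intro J hJ w
    refine deg_congr (fun l hl => ?_) w
    have hle : l ≠ e := fun h => hJ (h ▸ hl)
    rw [Function.update_of_ne hle, Function.update_of_ne hle]
    exact ⟨rfl, rfl⟩
  have hdege : ∀ J : Finset E, e ∈ J → ∀ w,
      deg (Function.update s e u) (Function.update t e x) J w =
        ((if u = w then 1 else 0) + (if x = w then 1 else 0)) + deg s t (J.erase e) w := by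
    intro J hJ w
    rw [deg_erase hJ, hdegne _ (notMem_erase e J), Function.update_self, Function.update_self]
  refine ⟨⟨fun l hl => ?_, fun R hR hev => ?_⟩, fun l hl => ?_⟩
  · rcases mem_insert.1 hl with rfl | hl
    · rcases hF with ⟨e1, e2⟩ | ⟨e1, e2⟩
      · rw [e1, e2]; exact ⟨mem_insert_self _ _, mem_insert_of_mem hx⟩
      · rw [e1, e2]; exact ⟨mem_insert_of_mem hx, mem_insert_self _ _⟩
    · by_cases hle : l = e
      · subst hle
        rcases hE with ⟨e1, e2⟩ | ⟨e1, e2⟩
        · rw [e1, e2]; exact ⟨mem_insert_self _ _, mem_insert_of_mem hu⟩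
        · rw [e1, e2]; exact ⟨mem_insert_of_mem hu, mem_insert_self _ _⟩
      · exact ⟨mem_insert_of_mem (hA l hl hle).1, mem_insert_of_mem (hA l hl hle).2⟩
  · by_cases hvR : v ∈ R
    · obtain ⟨R', hR'e, hR'⟩ := toggle (R.erase v) u (odd_erase hvR hev)
      have hsub : R' ⊆ U := by
        intro w hw
        by_cases hwu : w = u
        · rw [hwu]; exact hu
        · have h5 := (hR' w).1 hw
          have h6 : w ∈ R.erase v := by
            by_contra h7
            exact h5 ⟨fun h8 => absurd h8 h7, fun h8 => absurd h8 hwu⟩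
          obtain ⟨h7, h8⟩ := mem_erase.1 h6
          exact (mem_insert.1 (hR h8)).resolve_left h7
      obtain ⟨J, hJ, hj⟩ := h2 R' hsub hR'e
      have hRw : ∀ w, w ∈ R' ↔ ¬ ((w ≠ v ∧ w ∈ R) ↔ w = u) := by
        intro w
        rw [← mem_erase]
        exact hR' w
      have hvR' : v ∉ R' := fun h => hv (hsub h)
      -- the parity condition for a degree which differs by the edge `v u`
      have hpar : ∀ (w : V) (d : ℕ), (d % 2 = 1 ↔ w ∈ R') →
          (((if v = w then 1 else 0) + (if u = w then 1 else 0) + d) % 2 = 1 ↔ w ∈ R) := by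
        intro w d h4
        by_cases hwv : v = w
        · subst hwv
          rw [if_pos rfl, if_neg (Ne.symm hvu)]
          have : ¬ (d % 2 = 1) := fun h => hvR' (h4.1 h)
          constructor
          · intro _; exact hvR
          · intro _; omega
        · rw [if_neg hwv]
          by_cases hwu : u = w
          · subst hwu
            rw [if_pos rfl]
            have h7 : u ∈ R' ↔ ¬ (u ∈ R) := by
              rw [hRw]
              simp [Ne.symm hwv]
            rw [h7] at h4
            constructor
            · intro h8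
              by_contra h9
              have := h4.2 h9
              omega
            · intro h8
              have : ¬ (d % 2 = 1) := fun h => h4.1 h h8
              omega
          · rw [if_neg hwu]
            have h7 : w ∈ R' ↔ w ∈ R := by
              rw [hRw]
              simp [Ne.symm hwv, Ne.symm hwu]
            rw [h7] at h4
            rw [← h4]
            omega
      by_cases heJ : e ∈ J
      · have hfJ : f ∉ J.erase e := fun h => hf (hJ (mem_of_mem_erase h))
        refine ⟨insert f (J.erase e),
          insert_subset_insert _ ((erase_subset _ _).trans hJ), fun w => ?_⟩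
        have h4 := hj w
        rw [hdege J heJ, Nat.odd_iff] at h4
        have h5 := hpar w _ h4
        rw [Nat.odd_iff, ← h5, deg_insert hfJ, ct_ends hF]
        split_ifs <;> omega
      · have heJ' : e ∉ J := heJ
        refine ⟨insert e J, ?_, fun w => ?_⟩
        · intro l hl
          rcases mem_insert.1 hl with rfl | hl
          · exact mem_insert_of_mem heA
          · exact mem_insert_of_mem (hJ hl)
        · have h4 := hj w
          rw [hdegne J heJ, Nat.odd_iff] at h4
          have h5 := hpar w _ h4
          rw [Nat.odd_iff, ← h5, deg_insert heJ', ct_ends hE]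
    · have hsub : R ⊆ U := fun w hw =>
        (mem_insert.1 (hR hw)).resolve_left (fun h => hvR (h ▸ hw))
      obtain ⟨J, hJ, hj⟩ := h2 R hsub hev
      by_cases heJ : e ∈ J
      · have hfJ : f ∉ J := fun h => hf (hJ h)
        refine ⟨insert f J, insert_subset_insert _ hJ, fun w => ?_⟩
        have h4 := hj w
        rw [hdege J heJ, Nat.odd_iff] at h4
        rw [Nat.odd_iff, ← h4, deg_insert hfJ, ct_ends hF, deg_erase heJ, ct_ends hE]
        split_ifs <;> omega
      · refine ⟨J, hJ.trans (subset_insert _ _), fun w => ?_⟩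
        have h4 := hj w
        rw [hdegne J heJ] at h4
        exact h4
  · -- side functions
    have hcut : ∀ (y : V → Bool) (b : Bool) (k : E),
        (k ∈ cut s t (insert f A) (Function.update y v b) ↔
          (k = f ∧ b ≠ y x) ∨ (k = e ∧ b ≠ y u) ∨ (k ∈ A ∧ k ≠ e ∧ y (s k) ≠ y (t k))) := by
      intro y b k
      simp only [cut, mem_filter, mem_insert]
      constructor
      · rintro ⟨h4 | h4, h5⟩
        · subst h4
          left
          refine ⟨rfl, ?_⟩
          rcases hF with ⟨e1, e2⟩ | ⟨e1, e2⟩
          · rw [e1, e2, Function.update_self, Function.update_of_ne (Ne.symm hvx)] at h5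
            exact h5
          · rw [e1, e2, Function.update_self, Function.update_of_ne (Ne.symm hvx)] at h5
            exact h5.symm
        · right
          by_cases hke : k = e
          · subst hke
            left
            refine ⟨rfl, ?_⟩
            rcases hE with ⟨e1, e2⟩ | ⟨e1, e2⟩
            · rw [e1, e2, Function.update_self, Function.update_of_ne (Ne.symm hvu)] at h5
              exact h5
            · rw [e1, e2, Function.update_self, Function.update_of_ne (Ne.symm hvu)] at h5
              exact h5.symm
          · right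
            have h6 : s k ≠ v := fun h => hv (h ▸ (hA k h4 hke).1)
            have h7 : t k ≠ v := fun h => hv (h ▸ (hA k h4 hke).2)
            rw [Function.update_of_ne h6, Function.update_of_ne h7] at h5
            exact ⟨h4, hke, h5⟩
      · rintro (⟨h4, h5⟩ | ⟨h4, h5⟩ | ⟨h4, hke, h5⟩)
        · subst h4
          refine ⟨Or.inl rfl, ?_⟩
          rcases hF with ⟨e1, e2⟩ | ⟨e1, e2⟩
          · rw [e1, e2, Function.update_self, Function.update_of_ne (Ne.symm hvx)]
            exact h5
          · rw [e1, e2, Function.update_self, Function.update_of_ne (Ne.symm hvx)]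
            exact h5.symm
        · subst h4
          refine ⟨Or.inr heA, ?_⟩
          rcases hE with ⟨e1, e2⟩ | ⟨e1, e2⟩
          · rw [e1, e2, Function.update_self, Function.update_of_ne (Ne.symm hvu)]
            exact h5
          · rw [e1, e2, Function.update_self, Function.update_of_ne (Ne.symm hvu)]
            exact h5.symm
        · have h6 : s k ≠ v := fun h => hv (h ▸ (hA k h4 hke).1)
          have h7 : t k ≠ v := fun h => hv (h ▸ (hA k h4 hke).2)
          rw [Function.update_of_ne h6, Function.update_of_ne h7]
          exact ⟨Or.inr h4, h5⟩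
    have hcut' : ∀ (y : V → Bool) (k : E),
        (k ∈ cut (Function.update s e u) (Function.update t e x) A y ↔
          (k = e ∧ y u ≠ y x) ∨ (k ∈ A ∧ k ≠ e ∧ y (s k) ≠ y (t k))) := by
      intro y k
      simp only [cut, mem_filter]
      by_cases hke : k = e
      · subst hke
        rw [Function.update_self, Function.update_self]
        constructor
        · rintro ⟨-, h5⟩; exact Or.inl ⟨rfl, h5⟩
        · rintro (⟨-, h5⟩ | ⟨-, h5, -⟩)
          · exact ⟨heA, h5⟩
          · exact absurd rfl h5
      · rw [Function.update_of_ne hke, Function.update_of_ne hke]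
        constructor
        · rintro ⟨h4, h5⟩; exact Or.inr ⟨h4, hke, h5⟩
        · rintro (⟨h4, -⟩ | ⟨h4, -, h5⟩)
          · exact absurd h4 hke
          · exact ⟨h4, h5⟩
    rcases mem_insert.1 hl with hlf | hl
    · -- `f`
      obtain ⟨y, hy⟩ := h3 e heA
      have hye := (hcut' y e).1 (by rw [hy]; exact mem_singleton_self e)
      have hyux : y u ≠ y x := by
        rcases hye with ⟨-, h⟩ | ⟨-, h, -⟩
        · exact h
        · exact absurd rfl h
      refine ⟨Function.update y v (y u), ?_⟩
      ext k
      rw [hcut, mem_singleton, hlf]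
      constructor
      · rintro (⟨h4, -⟩ | ⟨-, h5⟩ | ⟨h4, h5, h6⟩)
        · exact h4
        · exact absurd rfl h5
        · exfalso
          have := (hcut' y k).2 (Or.inr ⟨h4, h5, h6⟩)
          rw [hy, mem_singleton] at this
          exact h5 this
      · intro h4
        exact Or.inl ⟨h4, hyux⟩
    · by_cases hle : l = e
      · rw [hle]
        obtain ⟨y, hy⟩ := h3 e heA
        have hye := (hcut' y e).1 (by rw [hy]; exact mem_singleton_self e)
        have hyux : y u ≠ y x := by
          rcases hye with ⟨-, h⟩ | ⟨-, h, -⟩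
          · exact h
          · exact absurd rfl h
        refine ⟨Function.update y v (y x), ?_⟩
        ext k
        rw [hcut, mem_singleton]
        constructor
        · rintro (⟨-, h5⟩ | ⟨h4, -⟩ | ⟨h4, h5, h6⟩)
          · exact absurd rfl h5
          · exact h4
          · exfalso
            have := (hcut' y k).2 (Or.inr ⟨h4, h5, h6⟩)
            rw [hy, mem_singleton] at this
            exact h5 this
        · intro h4
          exact Or.inr (Or.inl ⟨h4, hyux.symm⟩)
      · obtain ⟨y, hy⟩ := h3 l hl
        have hyux : y u = y x := by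
          by_contra h
          have := (hcut' y e).2 (Or.inl ⟨rfl, h⟩)
          rw [hy, mem_singleton] at this
          exact hle this.symm
        refine ⟨Function.update y v (y u), ?_⟩
        ext k
        rw [hcut, mem_singleton]
        constructor
        · rintro (⟨-, h5⟩ | ⟨-, h5⟩ | ⟨h4, h5, h6⟩)
          · exact absurd hyux h5
          · exact absurd rfl h5
          · have := (hcut' y k).2 (Or.inr ⟨h4, h5, h6⟩)
            rw [hy, mem_singleton] at this
            exact this
        · intro h4
          have h5 : k ∈ cut (Function.update s e u) (Function.update t e x) A y := by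
            rw [hy, mem_singleton]; exact h4
          rcases (hcut' y k).1 h5 with ⟨h6, -⟩ | h6
          · exact absurd (h4.symm.trans h6) hle
          · exact Or.inr (Or.inr h6)

/-- the conclusion -/
def Dec (s t : E → V) (S : Finset E) (U : Finset V) : Prop :=
  ∃ A B : Finset E, Disjoint A B ∧ A ∪ B = S ∧ Tree s t A U ∧ Tree s t B U

theorem mem_ins {s t : E → V} {S : Finset E} {Y : Finset V} {l : E} :
    l ∈ ins s t S Y ↔ l ∈ S ∧ s l ∈ Y ∧ t l ∈ Y := by
  unfold ins
  rw [mem_filter]

theorem combine {A B S : Finset E} {f g : E} (hfg : f ≠ g) (hf : f ∈ S) (hg : g ∈ S)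
    (hd : Disjoint A B) (hu : A ∪ B = (S.erase f).erase g) :
    f ∉ A ∧ g ∉ B ∧ Disjoint (insert f A) (insert g B) ∧ insert f A ∪ insert g B = S := by
  have hm : ∀ l, (l ∈ A ∨ l ∈ B) ↔ (l ≠ g ∧ l ≠ f ∧ l ∈ S) := by
    intro l
    rw [← mem_union, hu, mem_erase, mem_erase]
  have hfA : f ∉ A := fun h => ((hm f).1 (Or.inl h)).2.1 rfl
  have hfB : f ∉ B := fun h => ((hm f).1 (Or.inr h)).2.1 rfl
  have hgA : g ∉ A := fun h => ((hm g).1 (Or.inl h)).1 rfl
  have hgB : g ∉ B := fun h => ((hm g).1 (Or.inr h)).1 rfl
  refine ⟨hfA, hgB, ?_, ?_⟩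
  · rw [disjoint_left]
    intro l hl hl'
    rcases mem_insert.1 hl with rfl | hl
    · rcases mem_insert.1 hl' with h | h
      · exact hfg h
      · exact hfB h
    · rcases mem_insert.1 hl' with rfl | hl'
      · exact hgA hl
      · exact disjoint_left.1 hd hl hl'
  · ext l
    rw [mem_union, mem_insert, mem_insert]
    constructor
    · rintro ((rfl | h) | (rfl | h))
      · exact hf
      · exact ((hm l).1 (Or.inl h)).2.2
      · exact hg
      · exact ((hm l).1 (Or.inr h)).2.2
    · intro h
      by_cases h1 : l = f
      · exact Or.inl (Or.inl h1)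
      · by_cases h2 : l = g
        · exact Or.inr (Or.inl h2)
        · rcases (hm l).2 ⟨h2, h1, h⟩ with h3 | h3
          · exact Or.inl (Or.inr h3)
          · exact Or.inr (Or.inr h3)

theorem step3 {s t : E → V} {S : Finset E} {U : Finset V} {v : V} (hv : v ∈ U)
    (hS : ∀ e ∈ S, s e ∈ U ∧ t e ∈ U) (hc : S.card + 2 = 2 * U.card)
    (hsp : ∀ Y : Finset V, Y ⊆ U → Y.Nonempty → (ins s t S Y).card + 2 ≤ 2 * Y.card)
    (ih : ∀ (s' t' : E → V) (S' : Finset E), (∀ e ∈ S', s' e ∈ U.erase v ∧ t' e ∈ U.erase v) →
      S'.card + 2 = 2 * (U.erase v).card →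
      (∀ Y : Finset V, Y ⊆ U.erase v → Y.Nonempty → (ins s' t' S' Y).card + 2 ≤ 2 * Y.card) →
      Dec s' t' S' (U.erase v))
    (e f g : E) (hef : e ≠ f) (heg : e ≠ g) (hfg : f ≠ g) (he : e ∈ S) (hf : f ∈ S) (hg : g ∈ S)
    (hI : ∀ l ∈ S, (s l = v ∨ t l = v) → l = e ∨ l = f ∨ l = g)
    (u x y : V) (hu : u ∈ U.erase v) (hx : x ∈ U.erase v) (hy : y ∈ U.erase v)
    (hE : Ends s t e v u) (hF : Ends s t f v x) (hG : Ends s t g v y)
    (hunb : ∀ Y : Finset V, Y ⊆ U.erase v → u ∈ Y → x ∈ Y →
      (ins s t S Y).card + 3 ≤ 2 * Y.card) : Dec s t S U := by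
  have hcard : (U.erase v).card + 1 = U.card := card_erase_add_one hv
  have hinc : ∀ l ∈ S, l ≠ e → l ≠ f → l ≠ g → s l ∈ U.erase v ∧ t l ∈ U.erase v := by
    intro l hl h1 h2 h3
    have h4 : ¬ (s l = v ∨ t l = v) := fun h => by
      rcases hI l hl h with h | h | h
      · exact h1 h
      · exact h2 h
      · exact h3 h
    rw [not_or] at h4
    exact ⟨mem_erase.2 ⟨h4.1, (hS l hl).1⟩, mem_erase.2 ⟨h4.2, (hS l hl).2⟩⟩
  have hcS : ((S.erase f).erase g).card + 2 = S.card := by
    have h1 := card_erase_add_one hf
    have h2 := card_erase_add_one (mem_erase.2 ⟨hfg.symm, hg⟩ : g ∈ S.erase f)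
    omega
  have hD := ih (Function.update s e u) (Function.update t e x) ((S.erase f).erase g) ?_ ?_ ?_
  · have key : ∀ A B : Finset E, Disjoint A B → A ∪ B = (S.erase f).erase g →
        Tree (Function.update s e u) (Function.update t e x) A (U.erase v) →
        Tree (Function.update s e u) (Function.update t e x) B (U.erase v) → e ∈ A →
        Dec s t S U := by
      intro A B hd hAB hTA hTB heA
      obtain ⟨hfA, hgB, hd', hu'⟩ := combine hfg hf hg hd hAB
      have heB : e ∉ B := fun h => disjoint_left.1 hd heA h
      have h1 := subdiv hTA heA (notMem_erase v U) hfA hE hF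
      have h2 : Tree s t B (U.erase v) := by
        refine tree_congr (fun l hl => ?_) hTB
        have hle : l ≠ e := fun h => heB (h ▸ hl)
        rw [Function.update_of_ne hle, Function.update_of_ne hle]
        exact ⟨rfl, rfl⟩
      have h3 := leaf h2 (notMem_erase v U) hy hgB hG
      rw [insert_erase hv] at h1 h3
      exact ⟨_, _, hd', hu', h1, h3⟩
    obtain ⟨A, B, hd, hAB, hTA, hTB⟩ := hD
    have he' : e ∈ A ∪ B := by
      rw [hAB]
      exact mem_erase.2 ⟨heg, mem_erase.2 ⟨hef, he⟩⟩
    rcases mem_union.1 he' with h | h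
    · exact key A B hd hAB hTA hTB h
    · exact key B A hd.symm (by rw [union_comm]; exact hAB) hTB hTA h
  · intro l hl
    obtain ⟨h1, h2⟩ := mem_erase.1 hl
    obtain ⟨h3, h4⟩ := mem_erase.1 h2
    by_cases hle : l = e
    · rw [hle, Function.update_self, Function.update_self]
      exact ⟨hu, hx⟩
    · rw [Function.update_of_ne hle, Function.update_of_ne hle]
      exact hinc l h4 hle h3 h1
  · omega
  · intro Y hY hYn
    have hYU : Y ⊆ U := hY.trans (erase_subset _ _)
    by_cases hux : u ∈ Y ∧ x ∈ Y
    · have h1 : ins (Function.update s e u) (Function.update t e x) ((S.erase f).erase g) Y ⊆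
          insert e (ins s t S Y) := by
        intro l hl
        rw [mem_ins] at hl
        by_cases hle : l = e
        · rw [hle]; exact mem_insert_self _ _
        · rw [Function.update_of_ne hle, Function.update_of_ne hle] at hl
          exact mem_insert_of_mem (mem_ins.2 ⟨mem_of_mem_erase (mem_of_mem_erase hl.1), hl.2⟩)
      have h2 := card_le_card h1
      have h3 := card_insert_le e (ins s t S Y)
      have h4 := hunb Y hY hux.1 hux.2
      omega
    · have h1 : ins (Function.update s e u) (Function.update t e x) ((S.erase f).erase g) Y ⊆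
          ins s t S Y := by
        intro l hl
        rw [mem_ins] at hl
        by_cases hle : l = e
        · rw [hle, Function.update_self, Function.update_self] at hl
          exact absurd hl.2 hux
        · rw [Function.update_of_ne hle, Function.update_of_ne hle] at hl
          exact mem_ins.2 ⟨mem_of_mem_erase (mem_of_mem_erase hl.1), hl.2⟩
      have h2 := card_le_card h1
      have h4 := hsp Y hYU hYn
      omega

theorem noloop {s t : E → V} {S : Finset E} {U : Finset V}
    (hS : ∀ e ∈ S, s e ∈ U ∧ t e ∈ U)
    (hsp : ∀ Y : Finset V, Y ⊆ U → Y.Nonempty → (ins s t S Y).card + 2 ≤ 2 * Y.card)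
    {e : E} (he : e ∈ S) : s e ≠ t e := by
  intro h
  have h1 := hsp {s e} (singleton_subset_iff.2 (hS e he).1) (singleton_nonempty _)
  have h2 : e ∈ ins s t S {s e} := mem_ins.2 ⟨he, mem_singleton_self _, by rw [← h]; simp⟩
  have h3 := card_pos.2 ⟨e, h2⟩
  rw [card_singleton] at h1
  omega

theorem main : ∀ (n : ℕ) (s t : E → V) (S : Finset E) (U : Finset V), U.card = n →
    (∀ e ∈ S, s e ∈ U ∧ t e ∈ U) → S.card + 2 = 2 * U.card →
    (∀ Y : Finset V, Y ⊆ U → Y.Nonempty → (ins s t S Y).card + 2 ≤ 2 * Y.card) →
    Dec s t S U := by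
  intro n
  induction n with
  | zero =>
    intro s t S U hU _ hc _
    omega
  | succ n ih0 =>
    intro s t S U hU hS hc hsp
    rcases Nat.eq_zero_or_pos n with hn | hn
    · -- one vertex
      have hS0 : S = ∅ := card_eq_zero.1 (by omega)
      have hT : Tree s t ∅ U := by
        refine ⟨⟨fun e he => absurd he (notMem_empty e), fun R hR hev => ⟨∅, Subset.rfl, ?_⟩⟩,
          fun e he => absurd he (notMem_empty e)⟩
        have h1 := card_le_card hR
        have h2 : R.card = 0 := by
          obtain ⟨k, hk⟩ := hev
          omega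
        rw [card_eq_zero.1 h2]
        intro w
        simp [deg]
      exact ⟨∅, ∅, disjoint_empty_left _, by rw [hS0]; rfl, hT, hT⟩
    · have hnl : ∀ e ∈ S, s e ≠ t e := fun e he => noloop hS hsp he
      -- a vertex of small degree
      have hdeg : ∀ v, deg s t S v = (S.filter (fun e => s e = v ∨ t e = v)).card := by
        intro v
        rw [card_filter]
        unfold deg
        refine sum_congr rfl fun e he => ?_
        have := hnl e he
        by_cases h1 : s e = v
        · have h2 : ¬ t e = v := fun h => this (h1.trans h.symm)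
          simp [h1, h2]
        · simp [h1]
      have hsum : ∑ v ∈ U, deg s t S v = 2 * S.card := by
        rw [deg_sum, mul_comm, ← smul_eq_mul, ← sum_const]
        refine sum_congr rfl fun e he => ?_
        rw [if_pos (hS e he).1, if_pos (hS e he).2]
      obtain ⟨v, hv, hv3⟩ : ∃ v ∈ U, deg s t S v ≤ 3 := by
        by_contra hcon
        push Not at hcon
        have h1 : ∑ _v ∈ U, 4 ≤ ∑ v ∈ U, deg s t S v := sum_le_sum fun v hv => hcon v hv
        rw [sum_const, smul_eq_mul, hsum] at h1
        omega
      rw [hdeg] at hv3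
      set I : Finset E := S.filter (fun e => s e = v ∨ t e = v) with hIdef
      have hcard : (U.erase v).card + 1 = U.card := card_erase_add_one hv
      have hUn : (U.erase v).Nonempty := card_pos.1 (by omega)
      have hIS : I ⊆ S := filter_subset _ _
      have hins : ins s t S (U.erase v) = S \ I := by
        ext l
        rw [mem_ins, mem_sdiff, hIdef, mem_filter, mem_erase, mem_erase]
        constructor
        · rintro ⟨h1, ⟨h2, -⟩, h3, -⟩
          refine ⟨h1, fun h => ?_⟩
          rcases h.2 with h | h
          · exact h2 h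
          · exact h3 h
        · rintro ⟨h1, h2⟩
          refine ⟨h1, ⟨fun h => h2 ⟨h1, Or.inl h⟩, (hS l h1).1⟩,
            ⟨fun h => h2 ⟨h1, Or.inr h⟩, (hS l h1).2⟩⟩
      have hcI : (S \ I).card + I.card = S.card := card_sdiff_add_card_eq_card hIS
      have hv2 : 2 ≤ I.card := by
        have h1 := hsp (U.erase v) (erase_subset _ _) hUn
        rw [hins] at h1
        omega
      have hih : ∀ (s' t' : E → V) (S' : Finset E),
          (∀ e ∈ S', s' e ∈ U.erase v ∧ t' e ∈ U.erase v) →
          S'.card + 2 = 2 * (U.erase v).card →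
          (∀ Y : Finset V, Y ⊆ U.erase v → Y.Nonempty →
            (ins s' t' S' Y).card + 2 ≤ 2 * Y.card) → Dec s' t' S' (U.erase v) :=
        fun s' t' S' h1 h2 h3 => ih0 s' t' S' (U.erase v) (by omega) h1 h2 h3
      have hother : ∀ l ∈ I, ∃ u ∈ U.erase v, Ends s t l v u := by
        intro l hl
        rw [hIdef, mem_filter] at hl
        rcases hl.2 with h | h
        · refine ⟨t l, mem_erase.2 ⟨fun h1 => hnl l hl.1 (h.trans h1.symm), (hS l hl.1).2⟩,
            Or.inl ⟨h, rfl⟩⟩
        · refine ⟨s l, mem_erase.2 ⟨fun h1 => hnl l hl.1 (h1.trans h.symm), (hS l hl.1).1⟩,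
            Or.inr ⟨rfl, h⟩⟩
      have hnI : ∀ l ∈ S, l ∉ I → s l ∈ U.erase v ∧ t l ∈ U.erase v := by
        intro l hl hlI
        rw [hIdef, mem_filter] at hlI
        exact ⟨mem_erase.2 ⟨fun h => hlI ⟨hl, Or.inl h⟩, (hS l hl).1⟩,
          mem_erase.2 ⟨fun h => hlI ⟨hl, Or.inr h⟩, (hS l hl).2⟩⟩
      rcases (show I.card = 2 ∨ I.card = 3 by omega) with h2 | h3
      · -- degree two
        obtain ⟨e, f, hef, hI⟩ := card_eq_two.1 h2
        have heI : e ∈ I := by rw [hI]; simp
        have hfI : f ∈ I := by rw [hI]; simp
        obtain ⟨u, hu, hE⟩ := hother e heI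
        obtain ⟨x, hx, hF⟩ := hother f hfI
        have hSI : (S.erase e).erase f = S \ I := by
          ext l
          rw [mem_erase, mem_erase, mem_sdiff, hI, mem_insert, mem_singleton]
          tauto
        obtain ⟨A, B, hd, hAB, hTA, hTB⟩ := hih s t ((S.erase e).erase f) (by
            intro l hl
            rw [hSI, mem_sdiff] at hl
            exact hnI l hl.1 hl.2) (by rw [hSI]; omega) (by
            intro Y hY hYn
            have h1 : ins s t ((S.erase e).erase f) Y ⊆ ins s t S Y := by
              intro l hl
              rw [mem_ins] at hl ⊢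
              exact ⟨mem_of_mem_erase (mem_of_mem_erase hl.1), hl.2⟩
            have h2 := card_le_card h1
            have h3 := hsp Y (hY.trans (erase_subset _ _)) hYn
            omega)
        obtain ⟨heA, hfB, hd', hu'⟩ := combine hef (hIS heI) (hIS hfI) hd hAB
        have k1 := leaf hTA (notMem_erase v U) hu heA hE
        have k2 := leaf hTB (notMem_erase v U) hx hfB hF
        rw [insert_erase hv] at k1 k2
        exact ⟨_, _, hd', hu', k1, k2⟩
      · -- degree three
        obtain ⟨e, f, g, hef, heg, hfg, hI⟩ := card_eq_three.1 h3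
        have heI : e ∈ I := by rw [hI]; simp
        have hfI : f ∈ I := by rw [hI]; simp
        have hgI : g ∈ I := by rw [hI]; simp
        obtain ⟨u, hu, hE⟩ := hother e heI
        obtain ⟨x, hx, hF⟩ := hother f hfI
        obtain ⟨y, hy, hG⟩ := hother g hgI
        have hI' : ∀ l ∈ S, (s l = v ∨ t l = v) → l = e ∨ l = f ∨ l = g := by
          intro l hl h
          have : l ∈ I := by rw [hIdef, mem_filter]; exact ⟨hl, h⟩
          rw [hI] at this
          simpa using this
        have notight : ∀ Y : Finset V, Y ⊆ U.erase v → u ∈ Y → x ∈ Y → y ∈ Y →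
            (ins s t S Y).card + 2 ≠ 2 * Y.card := by
          intro Y hY huY hxY hyY hcon
          have hvY : v ∉ Y := fun h => notMem_erase v U (hY h)
          have hYU : insert v Y ⊆ U := by
            intro w hw
            rcases mem_insert.1 hw with rfl | hw
            · exact hv
            · exact mem_of_mem_erase (hY hw)
          have h1 := hsp (insert v Y) hYU (insert_nonempty _ _)
          rw [card_insert_of_notMem hvY] at h1
          have hends : ∀ (l : E) (w : V), w ∈ Y → Ends s t l v w → l ∈ I →
              l ∈ ins s t S (insert v Y) ∧ l ∉ ins s t S Y := by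
            intro l w hw hl hlI
            constructor
            · rw [mem_ins]
              refine ⟨hIS hlI, ?_⟩
              rcases hl with ⟨e1, e2⟩ | ⟨e1, e2⟩
              · rw [e1, e2]; exact ⟨mem_insert_self _ _, mem_insert_of_mem hw⟩
              · rw [e1, e2]; exact ⟨mem_insert_of_mem hw, mem_insert_self _ _⟩
            · rw [mem_ins]
              rintro ⟨-, h4, h5⟩
              rcases hl with ⟨e1, e2⟩ | ⟨e1, e2⟩
              · rw [e1] at h4; exact hvY h4
              · rw [e2] at h5; exact hvY h5
          have h2 : I ∪ ins s t S Y ⊆ ins s t S (insert v Y) := by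
            intro l hl
            rcases mem_union.1 hl with hl | hl
            · rw [hI, mem_insert, mem_insert, mem_singleton] at hl
              rcases hl with rfl | rfl | rfl
              · exact (hends l u huY hE heI).1
              · exact (hends l x hxY hF hfI).1
              · exact (hends l y hyY hG hgI).1
            · rw [mem_ins] at hl ⊢
              exact ⟨hl.1, mem_insert_of_mem hl.2.1, mem_insert_of_mem hl.2.2⟩
          have h4 : Disjoint I (ins s t S Y) := by
            rw [disjoint_left]
            intro l hl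
            rw [hI, mem_insert, mem_insert, mem_singleton] at hl
            rcases hl with rfl | rfl | rfl
            · exact (hends l u huY hE heI).2
            · exact (hends l x hxY hF hfI).2
            · exact (hends l y hyY hG hgI).2
          have h5 := card_le_card h2
          rw [card_union_of_disjoint h4] at h5
          omega
        by_cases hb1 : ∀ Y : Finset V, Y ⊆ U.erase v → u ∈ Y → x ∈ Y →
            (ins s t S Y).card + 3 ≤ 2 * Y.card
        · exact step3 hv hS hc hsp hih e f g hef heg hfg (hIS heI) (hIS hfI) (hIS hgI) hI'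
            u x y hu hx hy hE hF hG hb1
        · by_cases hb2 : ∀ Y : Finset V, Y ⊆ U.erase v → x ∈ Y → y ∈ Y →
              (ins s t S Y).card + 3 ≤ 2 * Y.card
          · refine step3 hv hS hc hsp hih f g e hfg hef.symm heg.symm (hIS hfI) (hIS hgI)
              (hIS heI) (fun l hl h => ?_) x y u hx hy hu hF hG hE hb2
            rcases hI' l hl h with h | h | h
            · exact Or.inr (Or.inr h)
            · exact Or.inl h
            · exact Or.inr (Or.inl h)
          · exfalso
            push Not at hb1 hb2
            obtain ⟨Y1, hY1, hu1, hx1, hc1⟩ := hb1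
            obtain ⟨Y2, hY2, hx2, hy2, hc2⟩ := hb2
            have s1 := hsp Y1 (hY1.trans (erase_subset _ _)) ⟨u, hu1⟩
            have s2 := hsp Y2 (hY2.trans (erase_subset _ _)) ⟨x, hx2⟩
            have s3 := hsp (Y1 ∩ Y2) ((inter_subset_left.trans hY1).trans (erase_subset _ _))
              ⟨x, mem_inter.2 ⟨hx1, hx2⟩⟩
            have s4 := hsp (Y1 ∪ Y2) ((union_subset hY1 hY2).trans (erase_subset _ _))
              ⟨x, mem_union_left _ hx1⟩
            have i1 : ins s t S Y1 ∩ ins s t S Y2 = ins s t S (Y1 ∩ Y2) := by
              ext l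
              rw [mem_inter, mem_ins, mem_ins, mem_ins, mem_inter, mem_inter]
              tauto
            have i2 : ins s t S Y1 ∪ ins s t S Y2 ⊆ ins s t S (Y1 ∪ Y2) := by
              intro l hl
              rw [mem_union, mem_ins, mem_ins] at hl
              rw [mem_ins, mem_union, mem_union]
              tauto
            have i3 := card_le_card i2
            have i4 := card_union_add_card_inter (ins s t S Y1) (ins s t S Y2)
            rw [i1] at i4
            have i5 := card_union_add_card_inter Y1 Y2
            refine notight (Y1 ∪ Y2) (union_subset hY1 hY2) (mem_union_left _ hu1)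
              (mem_union_left _ hx1) (mem_union_right _ hy2) ?_
            omega

end Tight

theorem tight2 {s t : E → V} (S : Finset E) (U : Finset V) (hS : ∀ e ∈ S, s e ∈ U ∧ t e ∈ U)
    (hc : S.card + 2 = 2 * U.card)
    (hsp : ∀ Y : Finset V, Y ⊆ U → Y.Nonempty → (ins s t S Y).card + 2 ≤ 2 * Y.card) :
    ∃ A B : Finset E, Disjoint A B ∧ A ∪ B = S ∧ Tree s t A U ∧ Tree s t B U :=
  Tight.main U.card s t S U rfl hS hc hsp

end Pool.Agent.TH362.TP
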