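import Pool.Agent.TH362.TP.MQ
import Pool.Agent.TH362.TP.Con2
import Pool.Agent.TH362.TP.Shr
import Pool.Agent.TH362.TP.Leaf
import Pool.Agent.TH362.TP.Tight
import Pool.Agent.TH362.TP.Laman

/-!
Sparsity of counterexamples which are minimal with respect to quotients: the number of edges plus
four is at most twice the number of vertices of positive degree.
-/

set_option autoImplicit false
set_option linter.unusedSectionVars false

namespace Pool.Agent.TH362.TP

open Finset Pool.Agent.TH362.TF

variable {V E : Type} [Fintype V] [DecidableEq V] [DecidableEq E]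

namespace Cnt

lemma sp {s t : E → V} {S : Finset E} (h : MinQ s t S) : ∀ (n : ℕ) (Y : Finset V), Y.card = n →
    2 ≤ Y.card → (ins s t S Y).card + 3 ≤ 2 * Y.card := by
  intro n
  induction n using Nat.strong_induction_on with
  | _ n ih =>
    intro Y hn hY
    by_contra hcon
    have hle : 2 * Y.card - 2 ≤ (ins s t S Y).card := by omega
    obtain ⟨S0, hS0, hc⟩ := exists_subset_card_eq hle
    have hSS : S0 ⊆ S := hS0.trans (filter_subset _ _)
    have hSY : ∀ e ∈ S0, s e ∈ Y ∧ t e ∈ Y := by
      intro e he
      have := hS0 he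
      rw [ins, mem_filter] at this
      exact this.2
    obtain ⟨A, B, hd, hu, hA, hB⟩ := tight2 (s := s) (t := t) S0 Y hSY (by omega) (by
      intro Z hZ hZn
      have hZc : 1 ≤ Z.card := card_pos.2 hZn
      by_cases h1 : Z.card = 1
      · obtain ⟨z, hz⟩ := card_eq_one.1 h1
        have h0 : ins s t S0 Z = ∅ := by
          rw [eq_empty_iff_forall_notMem]
          intro e he
          rw [ins, mem_filter, hz, mem_singleton, mem_singleton] at he
          exact h.noloop e (hSS he.1) (he.2.1.trans he.2.2.symm)
        rw [h0, card_empty]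
        omega
      · by_cases h2 : Z.card = Y.card
        · have h3 : (ins s t S0 Z).card ≤ S0.card := card_le_card (filter_subset _ _)
          omega
        · have h3 : Z.card ≤ Y.card := card_le_card hZ
          have h4 := ih Z.card (by omega) Z rfl (by omega)
          have h5 : (ins s t S0 Z).card ≤ (ins s t S Z).card := by
            apply card_le_card
            intro e he
            rw [ins, mem_filter] at he ⊢
            exact ⟨hSS he.1, he.2⟩
          omega)
    exact h.noDouble Y (subset_univ _) hY A B
      ((subset_union_left.trans hu.le).trans hSS) ((subset_union_right.trans hu.le).trans hSS)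
      hd hA.1 hB.1

lemma deg_pos {s t : E → V} {S : Finset E} {e : E} (he : e ∈ S) (v : V) (hv : s e = v ∨ t e = v) :
    deg s t S v ≠ 0 := by
  unfold deg
  intro h0
  rw [sum_eq_zero_iff] at h0
  have := h0 e he
  rcases hv with hv | hv
  · rw [if_pos hv] at this; omega
  · rw [if_pos hv] at this; omega

lemma nonempty {s t : E → V} {S : Finset E} (h : MinQ s t S) : ∃ e, e ∈ S := by
  by_contra hcon
  push Not at hcon
  apply h.nz
  refine ⟨fun _ => 0, fun e he => absurd he (hcon e), fun v => ?_⟩
  unfold Cons
  exact sum_eq_zero fun e he => absurd he (hcon e)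

lemma other {s t : E → V} {S : Finset E} (h : MinQ s t S) {e : E} (he : e ∈ S) (a : V)
    (ha : s e = a ∨ t e = a) : ∃ g ∈ S, g ≠ e ∧ s g ≠ t g ∧ (s g = a ∨ t g = a) := by
  by_contra hcon
  push Not at hcon
  have h3 : 3 ≤ deg s t S a := by
    rcases h.deg_ge a with h0 | h0
    · exact absurd h0 (deg_pos he a ha)
    · exact h0
  have h4 : deg s t S a = (if s e = a then 1 else 0) + (if t e = a then 1 else 0) := by
    unfold deg
    refine sum_eq_single_of_mem e he fun g hg hge => ?_
    obtain ⟨h5, h6⟩ := hcon g hg hge (h.noloop g hg)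
    rw [if_neg h5, if_neg h6, add_zero]
  have h5 : (if s e = a then 1 else 0) + (if t e = a then 1 else 0) ≤ 2 := by
    split_ifs <;> omega
  omega

lemma even_odd (s t : E → V) (S : Finset E) : Even (odd s t S).card := by
  have h := parity s t S (fun _ => true)
  have h1 : (odd s t S).filter (fun _ => true = true) = odd s t S := by
    rw [filter_true_of_mem]
    intro _ _
    rfl
  have h2 : cut s t S (fun _ => true) = ∅ := by
    rw [eq_empty_iff_forall_notMem]
    intro e he
    rw [cut, mem_filter] at he
    exact he.2 rfl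
  rw [h1, h2, card_empty] at h
  exact Nat.even_iff.2 h

lemma good_of {s t : E → V} {S : Finset E} (h : MinQ s t S) (U : Finset V)
    (hS : ∀ g ∈ S, s g ∈ U ∧ t g ∈ U) (hU : odd s t S ⊆ U) (e : E) (he : e ∈ S) (a b : V)
    (hab : Ends s t a b e) : ∀ (n : ℕ) (T1 T2 : Finset E) (x : V → Bool),
    (U.filter (fun v => x v = x a)).card = n → Tree s t T1 U → Tree s t T2 U → T1 ⊆ S → T2 ⊆ S →
    T1 ∩ T2 = {e} → cut s t T1 x = {e} → Good s t S (odd s t S) (odd s t S) := by
  have haU : a ∈ U := by
    rcases hab with hh | hh
    · rw [← hh.1]; exact (hS e he).1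
    · rw [← hh.2]; exact (hS e he).2
  have nd : NoDouble s t S U := fun W _ => h.noDouble W (subset_univ _)
  intro n
  induction n using Nat.strong_induction_on with
  | _ n ih =>
    intro T1 T2 x hn h1 h2 hs1 hs2 hi hx
    by_cases hc : 2 ≤ (U.filter (fun v => x v = x a)).card
    · obtain ⟨T1', T2', x', g1, g2, g3, g4, g5, g6, g7⟩ :=
        shrink nd h1 h2 hs1 hs2 hi a b hab x hx hc
      exact ih _ (by omega) T1' T2' x' rfl g1 g2 g3 g4 g5 g6
    · have ha : a ∈ U.filter (fun v => x v = x a) := mem_filter.2 ⟨haU, rfl⟩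
      have hv : U.filter (fun w => x w = x a) = {a} := by
        have h3 : (U.filter (fun w => x w = x a)).card ≤ 1 := by omega
        rw [card_le_one] at h3
        ext w
        rw [mem_singleton]
        constructor
        · intro hw
          exact h3 w hw a ha
        · intro hw
          rw [hw]
          exact ha
      refine leaf nd hS h1 h2 hs1 hs2 hi a b hab x hx hv (other h he a ?_) _ _ hU hU
        (even_odd s t S) (even_odd s t S)
      rcases hab with hh | hh
      · exact Or.inl hh.1
      · exact Or.inr hh.2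

end Cnt

open Cnt in
theorem MinQ.sparse {s t : E → V} {S : Finset E} (h : MinQ s t S) :
    S.card + 4 ≤ 2 * (univ.filter (fun v => deg s t S v ≠ 0)).card := by
  set U : Finset V := univ.filter (fun v => deg s t S v ≠ 0) with hUdef
  have hS : ∀ g ∈ S, s g ∈ U ∧ t g ∈ U := by
    intro g hg
    exact ⟨mem_filter.2 ⟨mem_univ _, deg_pos hg _ (Or.inl rfl)⟩,
      mem_filter.2 ⟨mem_univ _, deg_pos hg _ (Or.inr rfl)⟩⟩
  have hU : odd s t S ⊆ U := by
    intro v hv
    rw [odd, mem_filter] at hv
    refine mem_filter.2 ⟨mem_univ _, fun h0 => ?_⟩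
    rw [h0] at hv
    exact absurd hv.2 (by decide)
  obtain ⟨e, he⟩ := nonempty h
  have hU2 : 2 ≤ U.card := one_lt_card.2 ⟨s e, (hS e he).1, t e, (hS e he).2, h.noloop e he⟩
  have hins : ins s t S U = S := filter_true_of_mem hS
  have h1 := sp h U.card U rfl hU2
  rw [hins] at h1
  by_contra hcon
  obtain ⟨A, B, hi, hu, hA, hB⟩ := laman2 (s := s) (t := t) S U hS (by omega) h.noloop
    (fun Y _ hY => sp h Y.card Y rfl hY) e he
  have heA : e ∈ A := by
    have : e ∈ A ∩ B := by rw [hi]; exact mem_singleton_self e
    exact (mem_inter.1 this).1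
  obtain ⟨x, hx⟩ := hA.2 e heA
  exact h.nz (nz_of_good (good_of h U hS hU e he (s e) (t e) (Or.inl ⟨rfl, rfl⟩) _ A B x rfl hA hB
    (subset_union_left.trans hu.le) (subset_union_right.trans hu.le) hi hx))

end Pool.Agent.TH362.TP
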