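import Pool.Agent.TH362.TP.MQ
import Pool.Agent.TH362.TP.Con2
import Pool.Agent.TH362.TP.Cnt
import Mathlib.Algebra.BigOperators.Ring.Finset

/-! The theorem on graphs with at most twelve edge cuts of size three. -/

set_option autoImplicit false

namespace Pool.Agent.TH362.TP

open Finset Pool.Agent.TH362.TF

set_option linter.unusedSectionVars false

variable {V E : Type} [Fintype V] [DecidableEq V] [DecidableEq E]

namespace Fin12

theorem cuts3_quot {s t : E → V} {S S' : Finset E} {f : V → V} (hS : S' ⊆ S)
    (hf : ∀ e ∈ S, e ∉ S' → f (s e) = f (t e)) :
    cuts3 (fun e => f (s e)) (fun e => f (t e)) S' ⊆ cuts3 s t S := by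
  intro C hC
  simp only [cuts3, Finset.mem_filter, Finset.mem_image, Finset.mem_univ, true_and] at hC ⊢
  obtain ⟨⟨x, hx⟩, h3⟩ := hC
  refine ⟨⟨fun v => x (f v), ?_⟩, h3⟩
  rw [← quot_cut hS hf, hx]

theorem sum_deg (s t : E → V) (S : Finset E) : ∑ v : V, deg s t S v = 2 * S.card := by
  rw [deg_sum]
  simp only [Finset.mem_univ, if_true]
  rw [Finset.sum_const, smul_eq_mul]
  ring

theorem cut_single {s t : E → V} {S : Finset E} (hl : ∀ e ∈ S, s e ≠ t e) (v : V) :
    (cut s t S (fun u => decide (u = v))).card = deg s t S v := by
  unfold cut deg
  rw [Finset.card_filter]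
  refine Finset.sum_congr rfl fun e he => ?_
  have h := hl e he
  by_cases h1 : s e = v
  · have h2 : ¬ t e = v := fun h2 => h (h1.trans h2.symm)
    simp [h1, h2]
  · by_cases h2 : t e = v
    · simp [h1, h2]
    · simp [h1, h2]

/-- the ends of an edge which is in the cuts of `u` and of `v` -/
theorem ends_of {s t : E → V} {S : Finset E} {u v : V} (huv : u ≠ v) {e : E}
    (h1 : e ∈ cut s t S (fun w => decide (w = u))) (h2 : e ∈ cut s t S (fun w => decide (w = v))) :
    Ends s t u v e := by
  simp only [cut, Finset.mem_filter] at h1 h2
  have h3 := h1.2
  have h4 := h2.2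
  by_cases a1 : s e = u
  · have a2 : ¬ s e = v := fun h => huv (a1.symm.trans h)
    have a3 : t e = v := by
      by_contra a3
      simp [a2, a3] at h4
    exact Or.inl ⟨a1, a3⟩
  · have a2 : t e = u := by
      by_contra a2
      simp [a1, a2] at h3
    have a3 : ¬ t e = v := fun h => huv (a2.symm.trans h)
    have a4 : s e = v := by
      by_contra a4
      simp [a3, a4] at h4
    exact Or.inr ⟨a4, a2⟩

theorem cn_single {s t : E → V} {u v : V} (huv : u ≠ v) {e : E} (he : Ends s t u v e) :
    Cn s t {e} {u, v} := by
  refine ⟨?_, ?_⟩
  · intro x hx
    rw [Finset.mem_singleton] at hx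
    subst hx
    simp only [Finset.mem_insert, Finset.mem_singleton]
    rcases he with ⟨h1, h2⟩ | ⟨h1, h2⟩
    · exact ⟨Or.inl h1, Or.inr h2⟩
    · exact ⟨Or.inr h1, Or.inl h2⟩
  · intro R hR hev
    by_cases hu : u ∈ R
    · have hv : v ∈ R := by
        by_contra hv
        have : R = {u} := by
          ext w
          rw [Finset.mem_singleton]
          constructor
          · intro hw
            have := hR hw
            simp only [Finset.mem_insert, Finset.mem_singleton] at this
            rcases this with h | h
            · exact h
            · exact absurd (h ▸ hw) hv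
          · rintro rfl
            exact hu
        rw [this, Finset.card_singleton] at hev
        exact absurd hev (by decide)
      refine ⟨{e}, subset_rfl, ?_⟩
      intro w
      have hw : w ∈ R ↔ w = u ∨ w = v := by
        constructor
        · intro hw
          have := hR hw
          simpa only [Finset.mem_insert, Finset.mem_singleton] using this
        · rintro (rfl | rfl)
          · exact hu
          · exact hv
      rw [hw]
      unfold deg
      rw [Finset.sum_singleton]
      rcases he with ⟨h1, h2⟩ | ⟨h1, h2⟩
      · rw [h1, h2]
        by_cases a : w = u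
        · subst a
          simp [Ne.symm huv]
        · by_cases b : w = v
          · subst b
            simp [huv]
          · simp [a, b, Ne.symm a, Ne.symm b]
      · rw [h1, h2]
        by_cases a : w = u
        · subst a
          simp [Ne.symm huv]
        · by_cases b : w = v
          · subst b
            simp [huv]
          · simp [a, b, Ne.symm a, Ne.symm b]
    · have hv : v ∉ R := by
        intro hv
        have : R = {v} := by
          ext w
          rw [Finset.mem_singleton]
          constructor
          · intro hw
            have := hR hw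
            simp only [Finset.mem_insert, Finset.mem_singleton] at this
            rcases this with h | h
            · exact absurd (h ▸ hw) hu
            · exact h
          · rintro rfl
            exact hv
        rw [this, Finset.card_singleton] at hev
        exact absurd hev (by decide)
      refine ⟨∅, Finset.empty_subset _, ?_⟩
      intro w
      have hw : w ∉ R := by
        intro hw
        have := hR hw
        simp only [Finset.mem_insert, Finset.mem_singleton] at this
        rcases this with rfl | rfl
        · exact hu hw
        · exact hv hw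
      unfold deg
      rw [Finset.sum_empty]
      constructor
      · intro h
        exact absurd h (by decide)
      · intro h
        exact absurd h hw

theorem d3_le {s t : E → V} {S : Finset E} (h : MinQ s t S) :
    (univ.filter (fun v => deg s t S v = 3)).card ≤ (cuts3 s t S).card := by
  apply Finset.card_le_card_of_injOn (fun v => cut s t S (fun u => decide (u = v)))
  · intro v hv
    simp only [Finset.coe_filter, Finset.mem_univ, true_and, Set.mem_ofPred_eq] at hv
    simp only [cuts3, Finset.coe_filter, Finset.mem_image, Finset.mem_univ, true_and,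
      Set.mem_ofPred_eq]
    exact ⟨⟨_, rfl⟩, by rw [cut_single h.noloop]; exact hv⟩
  · intro u hu v hv huv
    simp only [Finset.coe_filter, Finset.mem_univ, true_and, Set.mem_ofPred_eq] at hu hv
    by_contra hne
    have huv' : cut s t S (fun w => decide (w = u)) = cut s t S (fun w => decide (w = v)) := huv
    have hc : (cut s t S (fun w => decide (w = u))).card = 3 := by
      rw [cut_single h.noloop]; exact hu
    obtain ⟨e, he, e', he', hee⟩ := Finset.one_lt_card.1
      (by omega : 1 < (cut s t S (fun w => decide (w = u))).card)
    have k1 := ends_of hne he (huv' ▸ he)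
    have k2 := ends_of hne he' (huv' ▸ he')
    have m1 : e ∈ S := (Finset.mem_filter.1 he).1
    have m2 : e' ∈ S := (Finset.mem_filter.1 he').1
    refine h.noDouble {u, v} (Finset.subset_univ _) ?_ {e} {e'} ?_ ?_ ?_ (cn_single hne k1)
      (cn_single hne k2)
    · rw [Finset.card_pair hne]
    · exact Finset.singleton_subset_iff.2 m1
    · exact Finset.singleton_subset_iff.2 m2
    · rw [Finset.disjoint_singleton]
      exact hee

theorem odd_le {s t : E → V} {S : Finset E} (h : MinQ s t S) :
    (odd s t S).card + 8 ≤ 2 * (univ.filter (fun v => deg s t S v = 3)).card := by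
  have hs := h.sparse
  have hp : ∀ v ∈ univ.filter (fun v => deg s t S v ≠ 0),
      4 + (if Odd (deg s t S v) then 1 else 0) ≤
        deg s t S v + 2 * (if deg s t S v = 3 then 1 else 0) := by
    intro v hv
    simp only [Finset.mem_filter, Finset.mem_univ, true_and] at hv
    have h3 : 3 ≤ deg s t S v := by
      rcases h.deg_ge v with h0 | h0
      · exact absurd h0 hv
      · exact h0
    by_cases h4 : deg s t S v = 3
    · rw [h4]
      decide
    · rw [if_neg h4]
      by_cases h5 : deg s t S v = 4
      · rw [h5]
        decide
      · split_ifs <;> omega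
  have hsum := Finset.sum_le_sum hp
  rw [Finset.sum_add_distrib, Finset.sum_add_distrib, ← Finset.mul_sum, Finset.sum_const,
    smul_eq_mul] at hsum
  have e1 : ∑ v ∈ univ.filter (fun v => deg s t S v ≠ 0), deg s t S v = 2 * S.card := by
    rw [← sum_deg s t S]
    exact Finset.sum_filter_ne_zero _
  have e2 : ∑ v ∈ univ.filter (fun v => deg s t S v ≠ 0),
      (if Odd (deg s t S v) then 1 else 0) = (odd s t S).card := by
    rw [← Finset.card_filter, Finset.filter_filter]
    unfold odd
    congr 1
    apply Finset.filter_congr
    intro v _
    constructor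
    · rintro ⟨_, h⟩
      exact h
    · intro h
      refine ⟨?_, h⟩
      intro h0
      rw [h0] at h
      exact absurd h (by decide)
  have e3 : ∑ v ∈ univ.filter (fun v => deg s t S v ≠ 0),
      (if deg s t S v = 3 then 1 else 0) = (univ.filter (fun v => deg s t S v = 3)).card := by
    rw [← Finset.card_filter, Finset.filter_filter]
    congr 1
    apply Finset.filter_congr
    intro v _
    constructor
    · rintro ⟨_, h⟩
      exact h
    · intro h
      exact ⟨by omega, h⟩
  rw [e1, e2, e3] at hsum
  omega

theorem aux (main16 : ∀ (s t : E → V) (S : Finset E), N1 s t S → (odd s t S).card ≤ 16 →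
      NZ s t S ∨ PQ s t S) : ∀ (n : ℕ) (s t : E → V) (S : Finset E), S.card = n → N1 s t S →
      (cuts3 s t S).card ≤ 12 → NZ s t S ∨ PQ s t S := by
  intro n
  induction n using Nat.strong_induction_on with
  | _ n IH =>
    intro s t S hn h1 h3
    by_contra hcon
    rw [not_or] at hcon
    obtain ⟨hnz, hpq⟩ := hcon
    have hQ : MinQ s t S := by
      refine ⟨h1, hnz, ?_⟩
      intro f S' hS hf hlt
      rcases IH S'.card (by omega) (fun e => f (s e)) (fun e => f (t e)) S' rfl
        (quot_n1 hS hf h1) ((Finset.card_le_card (cuts3_quot hS hf)).trans h3) with h | h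
      · exact h
      · exact absurd (quot_pq hS hf h) hpq
    have k1 := odd_le hQ
    have k2 := d3_le hQ
    rcases main16 s t S h1 (by omega) with h | h
    · exact hnz h
    · exact hpq h

end Fin12

theorem cuts12 (s t : E → V) (S : Finset E) (h1 : N1 s t S) (h3 : (cuts3 s t S).card ≤ 12)
    (main16 : ∀ (s t : E → V) (S : Finset E), N1 s t S → (odd s t S).card ≤ 16 →
      NZ s t S ∨ PQ s t S) : NZ s t S ∨ PQ s t S :=
  Fin12.aux main16 S.card s t S rfl h1 h3

end Pool.Agent.TH362.TP
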