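import Pool.Agent.TH362.TP.Defs
import Pool.Agent.TH362.TF.Bond

/-!
The cuts of size three of a graph and the triangles of its bond matroid.
-/

set_option autoImplicit false

namespace Pool.Agent.TH362.TP

open Finset Pool.Agent.TH362.TF

/-- The number of edge cuts of size three is at most the number of triangles of the bond
matroid. -/
theorem cuts3_le_triangles {V E : Type} [Fintype V] [DecidableEq V] [Fintype E] [DecidableEq E]
    (s t : E → V) (n : ℕ) (S : Set (Fin n → ZMod 2)) (hr : Multi.RepresentsBondMatroid s t n S) :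
    (cuts3 s t univ).card ≤
      {T : Finset (Fin n → ZMod 2) | ↑T ⊆ S ∧ T.card = 3 ∧ ∑ x ∈ T, x = 0}.ncard := by
  classical
  obtain ⟨ψ, hk, hinj, hS⟩ := hr
  rw [← Set.ncard_coe_finset]
  have hfin : {T : Finset (Fin n → ZMod 2) | ↑T ⊆ S ∧ T.card = 3 ∧ ∑ x ∈ T, x = 0}.Finite :=
    Set.toFinite _
  refine Set.ncard_le_ncard_of_injOn
    (fun C : Finset E => C.image (fun e => ψ (Pi.single e (1 : ZMod 2)))) ?_ ?_ hfin
  · intro C hC
    rw [Finset.mem_coe, cuts3, mem_filter, mem_image] at hC
    obtain ⟨⟨x, -, rfl⟩, h3⟩ := hC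
    refine ⟨?_, ?_, ?_⟩
    · intro y hy
      rw [Finset.mem_coe, mem_image] at hy
      obtain ⟨e, -, rfl⟩ := hy
      rw [← hS]
      exact ⟨e, rfl⟩
    · rw [Finset.card_image_of_injective _ hinj]
      exact h3
    · rw [Finset.sum_image (fun a _ b _ h => hinj h), ← map_sum]
      have h4 := Bond.star_ker hk x
      have h5 : ∑ e ∈ cut s t univ x, Pi.single e (1 : ZMod 2) =
          (fun e => if x (s e) ≠ x (t e) then (1 : ZMod 2) else 0) := by
        funext e'
        rw [Finset.sum_apply, Finset.sum_pi_single]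
        simp only [cut, mem_filter, mem_univ, true_and]
      rw [h5]
      exact h4
  · intro C _ D _ h
    exact Finset.image_injective hinj h

end Pool.Agent.TH362.TP
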