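import Pool.Agent.TH362.TF.Basic

/-!
Definitions for the theorem on graphs with few edge cuts of size three: joins, connecting edge
sets, trees, and minimal counterexamples with respect to quotients.
-/

set_option autoImplicit false

namespace Pool.Agent.TH362.TP

open Finset Pool.Agent.TH362.TF

section
variable {V E : Type} [Fintype V] [DecidableEq V] [DecidableEq E]

/-- `J` is an `R`-join: the vertices of odd degree in `J` are the elements of `R`. -/
def IsJoin (s t : E → V) (J : Finset E) (R : Finset V) : Prop :=
  ∀ v, Odd (deg s t J v) ↔ v ∈ R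

/-- The edges in `A` have both ends in `U` and connect `U` (in the form: `A` contains an `R`-join
for every subset `R` of `U` with an even number of elements). -/
def Cn (s t : E → V) (A : Finset E) (U : Finset V) : Prop :=
  (∀ e ∈ A, s e ∈ U ∧ t e ∈ U) ∧ ∀ R : Finset V, R ⊆ U → Even R.card → ∃ J ⊆ A, IsJoin s t J R

/-- `A` is the edge set of a spanning tree of `U`. -/
def Tree (s t : E → V) (A : Finset E) (U : Finset V) : Prop :=
  Cn s t A U ∧ ∀ e ∈ A, ∃ x : V → Bool, cut s t A x = {e}

/-- No subset of `U` with at least two elements is connected by two disjoint sets of edges. -/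
def NoDouble (s t : E → V) (S : Finset E) (U : Finset V) : Prop :=
  ∀ W : Finset V, W ⊆ U → 2 ≤ W.card → ∀ A B : Finset E, A ⊆ S → B ⊆ S → Disjoint A B →
    Cn s t A W → Cn s t B W → False

/-- The edges of `S` with both ends in `Y`. -/
def ins (s t : E → V) (S : Finset E) (Y : Finset V) : Finset E :=
  S.filter (fun e => s e ∈ Y ∧ t e ∈ Y)

/-- A minimal counterexample with respect to quotients. -/
structure MinQ (s t : E → V) (S : Finset E) : Prop where
  n1 : N1 s t S
  nz : ¬ NZ s t S
  ih : ∀ (f : V → V) (S' : Finset E), S' ⊆ S → (∀ e ∈ S, e ∉ S' → f (s e) = f (t e)) →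
    S'.card < S.card → NZ (fun e => f (s e)) (fun e => f (t e)) S'

/-- The edge cuts of size three. -/
def cuts3 (s t : E → V) (S : Finset E) : Finset (Finset E) :=
  (univ.image (fun x : V → Bool => cut s t S x)).filter (fun C => C.card = 3)

/-- There are disjoint joins for `R1` and `R2`. -/
def Good (s t : E → V) (S : Finset E) (R1 R2 : Finset V) : Prop :=
  ∃ J1 J2 : Finset E, J1 ⊆ S ∧ J2 ⊆ S ∧ Disjoint J1 J2 ∧ IsJoin s t J1 R1 ∧ IsJoin s t J2 R2

end

end Pool.Agent.TH362.TP
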