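import Pool.Agent.TH362.TP.Defs
import Pool.Agent.TH362.TF.Multi

set_option autoImplicit false

namespace Pool.Agent.TH362.TP

open Finset Pool.Agent.TH362.TF

/-- The edge cuts of size three, as a set of sets. -/
theorem cuts3_card {V E : Type} [Fintype V] [DecidableEq V] [Fintype E] [DecidableEq E]
    (s t : E → V) :
    (cuts3 s t univ).card =
      {C : Set E | C.ncard = 3 ∧ ∃ X : Set V, C = {e | ¬ (s e ∈ X ↔ t e ∈ X)}}.ncard := by
  classical
  rw [← Set.ncard_coe_finset]
  have hinj : Function.Injective (fun C : Finset E => (C : Set E)) := Finset.coe_injective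
  rw [← Set.ncard_image_of_injective _ hinj]
  congr 1
  ext C
  simp only [Set.mem_image, Set.mem_ofPred_eq, Finset.mem_coe, cuts3, mem_filter, mem_image,
    mem_univ, true_and]
  constructor
  · rintro ⟨D, ⟨⟨x, rfl⟩, h3⟩, rfl⟩
    refine ⟨by rw [Set.ncard_coe_finset]; exact h3, {v | x v = true}, ?_⟩
    ext e
    simp only [cut, Finset.coe_filter, mem_univ, true_and, Set.mem_ofPred_eq]
    cases x (s e) <;> cases x (t e) <;> simp
  · rintro ⟨h3, X, hX⟩
    refine ⟨cut s t univ (fun v => decide (v ∈ X)), ⟨⟨_, rfl⟩, ?_⟩, ?_⟩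
    · rw [← Set.ncard_coe_finset, ← h3, hX]
      congr 1
      ext e
      simp only [cut, Finset.coe_filter, mem_univ, true_and, Set.mem_ofPred_eq]
      by_cases h1 : s e ∈ X <;> by_cases h2 : t e ∈ X <;> simp [h1, h2]
    · rw [hX]
      ext e
      simp only [cut, Finset.coe_filter, mem_univ, true_and, Set.mem_ofPred_eq]
      by_cases h1 : s e ∈ X <;> by_cases h2 : t e ∈ X <;> simp [h1, h2]

end Pool.Agent.TH362.TP
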